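import Pool.Agent.H11.SZ.Av

/-!
# Averages for smooth compactly supported functions, real values
-/

open MeasureTheory Real Set Complex
open scoped ContDiff

namespace H11.SZ

/-- real, smooth, compact support, zero from `1` on -/
structure Rc (P : ℝ → ℝ) : Prop where
  sm : ContDiff ℝ ∞ P
  cs : HasCompactSupport P
  z : ∀ v, 1 ≤ v → P v = 0

/-- the complex-valued version -/
def cx (P : ℝ → ℝ) : ℝ → ℂ := fun u => (P u : ℂ)

theorem Rc.nc {P : ℝ → ℝ} (h : Rc P) : Nc (cx P) :=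
  ⟨Complex.ofRealCLM.contDiff.comp h.sm, h.cs.comp_left (g := fun x : ℝ => (x : ℂ)) (by simp)⟩

theorem Rc.hd {P : ℝ → ℝ} (h : Rc P) (u : ℝ) : HasDerivAt P (deriv P u) u :=
  ((h.sm.differentiable (by simp)) u).hasDerivAt

theorem Rc.cont {P : ℝ → ℝ} (h : Rc P) : Continuous P := h.sm.continuous

theorem Rc.dcont {P : ℝ → ℝ} (h : Rc P) : Continuous (deriv P) :=
  (contDiff_infty_iff_deriv.1 h.sm).2.continuous

theorem Rc.dz {P : ℝ → ℝ} (h : Rc P) (v : ℝ) (hv : 1 ≤ v) : deriv P v = 0 := by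
  have h1 : ∀ w, 1 < w → deriv P w = 0 := by
    intro w hw
    have : P =ᶠ[nhds w] fun _ => 0 := by
      filter_upwards [lt_mem_nhds hw] with x hx using h.z x hx.le
    rw [this.deriv_eq, deriv_const]
  rcases hv.lt_or_eq with hv | hv
  · exact h1 v hv
  · subst hv
    have hc := h.dcont.continuousAt (x := (1:ℝ))
    have h2 : Filter.Tendsto (deriv P) (nhdsWithin 1 (Ioi 1)) (nhds (deriv P 1)) := hc.tendsto.mono_left nhdsWithin_le_nhds
    have h3 : Filter.Tendsto (deriv P) (nhdsWithin 1 (Ioi 1)) (nhds 0) := by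
      refine tendsto_const_nhds.congr' ?_
      filter_upwards [self_mem_nhdsWithin] with x hx using (h1 x hx).symm
    exact tendsto_nhds_unique h2 h3

theorem deriv_cx {P : ℝ → ℝ} (h : Rc P) (u : ℝ) : deriv (cx P) u = ((deriv P u : ℝ) : ℂ) :=
  ((h.hd u).ofReal_comp).deriv

/-- integrals over the half line of functions which vanish from `1` on -/
theorem ioi_eq {E : Type*} [NormedAddCommGroup E] [NormedSpace ℝ E] {g : ℝ → E} (hg : ∀ v, 1 ≤ v → g v = 0) :
    ∫ v in Ioi (0:ℝ), g v = ∫ v in (0:ℝ)..1, g v := by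
  rw [intervalIntegral.integral_of_le zero_le_one]
  refine (setIntegral_eq_of_subset_of_forall_sdiff_eq_zero measurableSet_Ioi (fun x hx => hx.1) fun x hx => ?_)
  refine hg x ?_
  by_contra hlt
  exact hx.2 ⟨hx.1, (not_le.1 hlt).le⟩

/-- shifted half lines -/
theorem ioi_shift {E : Type*} [NormedAddCommGroup E] [NormedSpace ℝ E] {g : ℝ → E} (hg : ∀ v, 1 ≤ v → g v = 0)
    {s : ℝ} (hs1 : s ≤ 1) :
    ∫ v in Ioi (0:ℝ), g (s + v) = ∫ v in s..1, g v := by
  have h1 : ∫ v in Ioi (0:ℝ), g (s + v) = ∫ v in (0:ℝ)..(1 - s), g (s + v) := by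
    rw [intervalIntegral.integral_of_le (by linarith)]
    refine (setIntegral_eq_of_subset_of_forall_sdiff_eq_zero measurableSet_Ioi (fun x hx => hx.1) fun x hx => ?_)
    refine hg _ ?_
    by_contra hlt
    exact hx.2 ⟨hx.1, by linarith [not_le.1 hlt]⟩
  rw [h1, intervalIntegral.integral_comp_add_left (fun v => g v) s]
  congr 1 <;> ring

theorem cxi {g : ℝ → ℝ} : ∫ v in (0:ℝ)..1, (g v : ℂ) = ((∫ v in (0:ℝ)..1, g v : ℝ) : ℂ) :=
  intervalIntegral.integral_ofReal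

/-! ### single averages -/

section single

variable {P : ℝ → ℝ} (h : Rc P)
include h

theorem s0 : ∫ ξ : ℝ, pc (cx P) ξ = (P 0 : ℂ) := by
  have := pc_inv h.nc 0
  simpa [cx] using this

theorem s_pow (m : ℕ) : Integrable (fun ξ => pc (cx P) ξ / tau ξ ^ (m + 1)) ∧
    ∫ ξ : ℝ, pc (cx P) ξ / tau ξ ^ (m + 1) = ((m.factorial : ℝ)⁻¹ * ∫ v in (0:ℝ)..1, v ^ m * P v : ℝ) := by
  obtain ⟨h1, h2⟩ := int_div (pc_int h.nc) m
  refine ⟨h1, ?_⟩
  rw [h2]
  simp_rw [Tr_pc h.nc]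
  rw [ioi_eq (fun v hv => by simp [cx, h.z v hv])]
  have : (fun v : ℝ => (v : ℂ) ^ m * cx P v) = fun v : ℝ => ((v ^ m * P v : ℝ) : ℂ) := by
    funext v; simp [cx]
  rw [this, cxi]
  push_cast
  ring

theorem s_exp (m : ℕ) : Integrable (fun ξ => pc (cx P) ξ * cexp (-tau ξ) / tau ξ ^ (m + 1)) ∧
    ∫ ξ : ℝ, pc (cx P) ξ * cexp (-tau ξ) / tau ξ ^ (m + 1) = 0 := by
  have h0 := int_exp (pc_int h.nc) 1
  simp only [ofReal_one, mul_one] at h0
  obtain ⟨h1, h2⟩ := int_div h0 m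
  refine ⟨h1, ?_⟩
  rw [h2]
  have h3 : ∀ s : ℝ, Tr (fun ξ => pc (cx P) ξ * cexp (-tau ξ)) s = cx P (1 + s) := by
    intro s
    have := Tr_exp (a := pc (cx P)) 1 s
    simp only [ofReal_one, mul_one] at this
    rw [this, Tr_pc h.nc]
  simp_rw [h3]
  rw [setIntegral_congr_fun (g := fun _ => (0:ℂ)) measurableSet_Ioi]
  · simp
  · intro s hs
    have hs' : (0:ℝ) < s := hs
    simp [cx, h.z (1 + s) (by linarith)]

theorem Tr_p (v : ℝ) : Tr (pc (cx P)) v = (P v : ℂ) := Tr_pc h.nc v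

theorem i_p : Integrable (pc (cx P)) := pc_int h.nc

theorem i_t : Integrable (fun ξ => tau ξ * pc (cx P) ξ) := by
  have := (pc_int h.nc.deriv).neg
  refine this.congr (ae_of_all _ fun ξ => ?_)
  simp only [Pi.neg_apply]
  rw [pc_deriv h.nc, neg_neg]

theorem Tr_t (v : ℝ) : Tr (fun ξ => tau ξ * pc (cx P) ξ) v = -((deriv P v : ℝ) : ℂ) := by
  have h1 := Tr_pc h.nc.deriv v
  rw [deriv_cx h] at h1
  rw [← h1]
  unfold Tr
  rw [← integral_neg]
  congr 1
  funext ξ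
  rw [pc_deriv h.nc]
  ring

theorem i_d : Integrable (fun ξ => pc (cx P) ξ / tau ξ) := (int_div1 (pc_int h.nc)).1

theorem Tr_d (v : ℝ) : Tr (fun ξ => pc (cx P) ξ / tau ξ) v = ((∫ u in v..1, P u : ℝ) : ℂ) := by
  rw [Tr_div (pc_int h.nc)]
  simp_rw [Tr_pc h.nc]
  rcases le_total v 1 with h1 | h1
  · rw [ioi_shift (fun u hu => by simp [cx, h.z u hu]) h1]
    exact intervalIntegral.integral_ofReal
  · have h2 : ∫ u in v..1, P u = 0 := by
      rw [intervalIntegral.integral_symm, intervalIntegral.integral_congr (g := fun _ => (0:ℝ))]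
      · simp
      · intro u hu
        rw [uIcc_of_le h1] at hu
        exact h.z u hu.1
    rw [h2, setIntegral_congr_fun (g := fun _ => (0:ℂ)) measurableSet_Ioi]
    · simp
    · intro s hs
      have hs' : (0:ℝ) < s := hs
      simp [cx, h.z (v + s) (by linarith)]

theorem i_e : Integrable (fun ξ => pc (cx P) ξ * cexp (-tau ξ)) := by
  have h0 := int_exp (pc_int h.nc) 1
  simpa only [ofReal_one, mul_one] using h0

theorem Tr_e {v : ℝ} (hv : 0 < v) : Tr (fun ξ => pc (cx P) ξ * cexp (-tau ξ)) v = 0 := by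
  have := Tr_exp (a := pc (cx P)) 1 v
  simp only [ofReal_one, mul_one] at this
  rw [this, Tr_pc h.nc]
  simp [cx, h.z (1 + v) (by linarith)]

end single

/-! ### double averages -/

/-- the double average of two coefficient functions with `1/(τ+u)` -/
noncomputable def DD (a b : ℝ → ℂ) : ℂ := ∫ p : ℝ × ℝ, a p.1 * b p.2 / (tau p.1 + tau p.2)

theorem DD_of {a b : ℝ → ℂ} (ha : Integrable a) (hb : Integrable b) {f g : ℝ → ℝ}
    (hf : ∀ s, 0 < s → Tr a s = (f s : ℂ)) (hg : ∀ s, 0 < s → Tr b s = (g s : ℂ)) (hz : ∀ s, 1 ≤ s → f s * g s = 0) :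
    DD a b = ((∫ s in (0:ℝ)..1, f s * g s : ℝ) : ℂ) := by
  unfold DD
  rw [(dbl ha hb).2.2, setIntegral_congr_fun (g := fun s => ((f s * g s : ℝ) : ℂ)) measurableSet_Ioi]
  · rw [ioi_eq (fun s hs => by rw [hz s hs, ofReal_zero])]
    exact cxi
  · intro s hs
    simp only
    rw [hf s hs, hg s hs]
    push_cast
    ring

section double

variable {P α : ℝ → ℝ} (h : Rc P) (k : Rc α)
include h k

theorem d_pp : DD (pc (cx P)) (pc (cx α)) = ((∫ s in (0:ℝ)..1, P s * α s : ℝ) : ℂ) :=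
  DD_of (i_p h) (i_p k) (fun s _ => Tr_p h s) (fun s _ => Tr_p k s) (fun s hs => by rw [h.z s hs, zero_mul])

theorem d_tp : DD (fun ξ => tau ξ * pc (cx P) ξ) (pc (cx α)) = -((∫ s in (0:ℝ)..1, deriv P s * α s : ℝ) : ℂ) := by
  rw [DD_of (f := fun s => -deriv P s) (g := α) (i_t h) (i_p k) (fun s _ => by rw [Tr_t h s]; push_cast; ring)
    (fun s _ => Tr_p k s) (fun s hs => by rw [k.z s hs, mul_zero])]
  rw [← ofReal_neg, ← intervalIntegral.integral_neg]
  congr 2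
  funext s
  ring

theorem d_pt : DD (pc (cx P)) (fun ξ => tau ξ * pc (cx α) ξ) = -((∫ s in (0:ℝ)..1, P s * deriv α s : ℝ) : ℂ) := by
  rw [DD_of (f := P) (g := fun s => -deriv α s) (i_p h) (i_t k) (fun s _ => Tr_p h s)
    (fun s _ => by rw [Tr_t k s]; push_cast; ring) (fun s hs => by rw [h.z s hs, zero_mul])]
  rw [← ofReal_neg, ← intervalIntegral.integral_neg]
  congr 2
  funext s
  ring

theorem d_tt : DD (fun ξ => tau ξ * pc (cx P) ξ) (fun ξ => tau ξ * pc (cx α) ξ)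
    = ((∫ s in (0:ℝ)..1, deriv P s * deriv α s : ℝ) : ℂ) := by
  rw [DD_of (f := fun s => -deriv P s) (g := fun s => -deriv α s) (i_t h) (i_t k)
    (fun s _ => by rw [Tr_t h s]; push_cast; ring)
    (fun s _ => by rw [Tr_t k s]; push_cast; ring) (fun s hs => by rw [h.dz s hs]; ring)]
  congr 2
  funext s
  ring

theorem d_pd : DD (pc (cx P)) (fun ξ => pc (cx α) ξ / tau ξ)
    = ((∫ s in (0:ℝ)..1, P s * ∫ v in s..1, α v : ℝ) : ℂ) :=
  DD_of (i_p h) (i_d k) (fun s _ => Tr_p h s) (fun s _ => Tr_d k s) (fun s hs => by rw [h.z s hs, zero_mul])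

theorem d_dp : DD (fun ξ => pc (cx P) ξ / tau ξ) (pc (cx α))
    = ((∫ s in (0:ℝ)..1, (∫ v in s..1, P v) * α s : ℝ) : ℂ) :=
  DD_of (f := fun s => ∫ v in s..1, P v) (i_d h) (i_p k) (fun s _ => Tr_d h s) (fun s _ => Tr_p k s) (fun s hs => by rw [k.z s hs, mul_zero])

theorem d_pe : DD (pc (cx P)) (fun ξ => pc (cx α) ξ * cexp (-tau ξ)) = 0 := by
  rw [DD_of (f := P) (g := fun _ => 0) (i_p h) (i_e k) (fun s _ => Tr_p h s)
    (fun s hs => by rw [Tr_e k hs]; simp) (fun s _ => by ring)]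
  simp

end double

end H11.SZ
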