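import Pool.Agent.H11.SZ.Kn

/-!
# Averages over the Fourier-Laplace coefficients
-/

open MeasureTheory Real Set Complex

namespace H11.SZ

/-- `∫ a / φ^{m+1} = (1/m!) ∫_{s > 0} s^m ∫ a e^{-φ s}` when `Re φ = c > 0` -/
theorem lap_pow {X : Type*} [MeasurableSpace X] {μ : Measure X} [SFinite μ] {a φ : X → ℂ} (ha : Integrable a μ)
    (hφ : AEStronglyMeasurable φ μ) {c : ℝ} (hc : 0 < c) (hre : ∀ x, (φ x).re = c) (m : ℕ) :
    Integrable (fun x => a x / φ x ^ (m + 1)) μ ∧
    IntegrableOn (fun s : ℝ => (s : ℂ) ^ m * ∫ x, a x * cexp (-(φ x * s)) ∂μ) (Ioi 0) ∧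
    ∫ x, a x / φ x ^ (m + 1) ∂μ
      = (m.factorial : ℂ)⁻¹ * ∫ s in Ioi (0:ℝ), (s : ℂ) ^ m * ∫ x, a x * cexp (-(φ x * s)) ∂μ := by
  have hexp : IntegrableOn (fun s : ℝ => (s : ℂ) ^ m * cexp (-((c : ℂ) * s))) (Ioi 0) :=
    powexp_int m (t := (c : ℂ)) (by simpa using hc)
  have hF : Integrable (fun p : X × ℝ => a p.1 * ((p.2 : ℂ) ^ m * cexp (-(φ p.1 * p.2)))) (μ.prod (volume.restrict (Ioi 0))) := by
    have h1 : Integrable (fun p : X × ℝ => a p.1 * ((p.2 : ℂ) ^ m * cexp (-((c : ℂ) * p.2)))) (μ.prod (volume.restrict (Ioi 0))) :=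
      Integrable.mul_prod ha hexp
    refine h1.norm.mono' ?_ (ae_of_all _ fun p => ?_)
    · have h2 : AEStronglyMeasurable (fun p : X × ℝ => a p.1) (μ.prod (volume.restrict (Ioi 0))) :=
        ha.aestronglyMeasurable.comp_fst
      have h3 : AEStronglyMeasurable (fun p : X × ℝ => φ p.1) (μ.prod (volume.restrict (Ioi 0))) :=
        hφ.comp_fst
      have h4 : AEStronglyMeasurable (fun p : X × ℝ => (p.2 : ℂ)) (μ.prod (volume.restrict (Ioi 0))) := by
        apply Measurable.aestronglyMeasurable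
        fun_prop
      have h5 : AEStronglyMeasurable (fun p : X × ℝ => cexp (-(φ p.1 * p.2))) (μ.prod (volume.restrict (Ioi 0))) :=
        Complex.continuous_exp.comp_aestronglyMeasurable (h3.mul h4).neg
      exact h2.mul ((h4.pow m).mul h5)
    · rw [norm_mul, norm_mul, norm_mul, norm_mul, Complex.norm_exp, Complex.norm_exp]
      simp [hre]
  have h0 : ∀ x, a x / φ x ^ (m + 1) = (m.factorial : ℂ)⁻¹ * ∫ s in Ioi (0:ℝ), a x * ((s : ℂ) ^ m * cexp (-(φ x * s))) := by
    intro x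
    have hx : 0 < (φ x).re := by rw [hre]; exact hc
    have hne : φ x ≠ 0 := by rintro h; rw [h] at hx; simp at hx
    rw [integral_const_mul, powexp m hx]
    have hf0 : (m.factorial : ℂ) ≠ 0 := by exact_mod_cast Nat.factorial_ne_zero _
    field_simp
  have h1 : ∀ s : ℝ, ∫ x, a x * ((s : ℂ) ^ m * cexp (-(φ x * s))) ∂μ = (s : ℂ) ^ m * ∫ x, a x * cexp (-(φ x * s)) ∂μ := by
    intro s
    rw [← integral_const_mul]
    congr 1
    funext x
    ring
  refine ⟨?_, ?_, ?_⟩
  · refine (hF.integral_prod_left.const_mul ((m.factorial : ℂ)⁻¹)).congr (ae_of_all _ fun x => ?_)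
    simp only
    rw [h0 x]
  · have h2 := hF.integral_prod_right
    refine h2.congr (ae_of_all _ fun s => ?_)
    simp only
    exact h1 s
  · simp_rw [h0]
    rw [integral_const_mul]
    congr 1
    have h3 := integral_integral_swap (μ := μ) (ν := volume.restrict (Ioi (0:ℝ)))
      (f := fun x (s : ℝ) => a x * ((s : ℂ) ^ m * cexp (-(φ x * s)))) hF
    rw [h3]
    refine setIntegral_congr_fun measurableSet_Ioi fun s _ => h1 s

/-- the transform of a coefficient function -/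
noncomputable def Tr (a : ℝ → ℂ) (v : ℝ) : ℂ := ∫ ξ : ℝ, a ξ * cexp (-(tau ξ * v))

theorem Tr_pc {f : ℝ → ℂ} (h : Nc f) (v : ℝ) : Tr (pc f) v = f v := pc_inv h v

theorem norm_exp_tau (ξ v : ℝ) : ‖cexp (-(tau ξ * v))‖ = Real.exp (-(2 * v)) := by
  rw [Complex.norm_exp]
  simp [tau_re]

theorem meas_exp_tau (v : ℝ) : AEStronglyMeasurable (fun ξ : ℝ => cexp (-(tau ξ * v))) := by
  apply Continuous.aestronglyMeasurable
  have := continuous_tau
  fun_prop

theorem int_exp {a : ℝ → ℂ} (ha : Integrable a) (v : ℝ) : Integrable fun ξ : ℝ => a ξ * cexp (-(tau ξ * v)) := by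
  refine (ha.norm.mul_const (Real.exp (-(2 * v)))).mono' (ha.aestronglyMeasurable.mul (meas_exp_tau v))
    (ae_of_all _ fun ξ => ?_)
  rw [norm_mul, norm_exp_tau]

theorem Tr_exp {a : ℝ → ℂ} (v w : ℝ) : Tr (fun ξ => a ξ * cexp (-(tau ξ * v))) w = Tr a (v + w) := by
  unfold Tr
  congr 1
  funext ξ
  rw [mul_assoc, ← Complex.exp_add]
  congr 2
  push_cast
  ring

/-- integrability and value of `∫ a / τ^{m+1}` -/
theorem int_div {a : ℝ → ℂ} (ha : Integrable a) (m : ℕ) : Integrable (fun ξ => a ξ / tau ξ ^ (m + 1)) ∧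
    ∫ ξ : ℝ, a ξ / tau ξ ^ (m + 1) = (m.factorial : ℂ)⁻¹ * ∫ s in Ioi (0:ℝ), (s : ℂ) ^ m * Tr a s := by
  obtain ⟨h1, _, h3⟩ := lap_pow ha continuous_tau.aestronglyMeasurable (c := 2) two_pos tau_re m
  exact ⟨h1, h3⟩

theorem int_div1 {a : ℝ → ℂ} (ha : Integrable a) : Integrable (fun ξ => a ξ / tau ξ) ∧
    ∫ ξ : ℝ, a ξ / tau ξ = ∫ s in Ioi (0:ℝ), Tr a s := by
  have := int_div ha 0
  simpa using this

theorem Tr_div {a : ℝ → ℂ} (ha : Integrable a) (v : ℝ) : Tr (fun ξ => a ξ / tau ξ) v = ∫ s in Ioi (0:ℝ), Tr a (v + s) := by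
  have := (int_div1 (int_exp ha v)).2
  simp_rw [Tr_exp] at this
  rw [← this]
  unfold Tr
  congr 1
  funext ξ
  ring

/-- the double average -/
theorem dbl {a b : ℝ → ℂ} (ha : Integrable a) (hb : Integrable b) :
    Integrable (fun p : ℝ × ℝ => a p.1 * b p.2 / (tau p.1 + tau p.2)) ∧
    IntegrableOn (fun s : ℝ => Tr a s * Tr b s) (Ioi 0) ∧
    ∫ p : ℝ × ℝ, a p.1 * b p.2 / (tau p.1 + tau p.2) = ∫ s in Ioi (0:ℝ), Tr a s * Tr b s := by
  have hab : Integrable (fun p : ℝ × ℝ => a p.1 * b p.2) := ha.mul_prod hb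
  have hφ : AEStronglyMeasurable (fun p : ℝ × ℝ => tau p.1 + tau p.2) := by
    apply Continuous.aestronglyMeasurable
    have := continuous_tau
    fun_prop
  obtain ⟨h1, h2, h3⟩ := lap_pow hab hφ (c := 4) (by norm_num) (fun p => by
    rw [add_re, tau_re, tau_re]; norm_num) 0
  have hI : ∀ s : ℝ, ∫ p : ℝ × ℝ, a p.1 * b p.2 * cexp (-((tau p.1 + tau p.2) * s)) = Tr a s * Tr b s := by
    intro s
    unfold Tr
    rw [← integral_prod_mul]
    congr 1
    funext p
    have : cexp (-((tau p.1 + tau p.2) * s)) = cexp (-(tau p.1 * s)) * cexp (-(tau p.2 * s)) := by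
      rw [← Complex.exp_add]; congr 1; ring
    rw [this]
    ring
  refine ⟨by simpa using h1, ?_, ?_⟩
  · have := h2
    simp only [pow_zero, one_mul] at this
    simpa only [hI] using this
  · simp only [zero_add, pow_one, Nat.factorial_zero, Nat.cast_one, inv_one, one_mul, pow_zero] at h3
    rw [h3]
    refine setIntegral_congr_fun measurableSet_Ioi fun s _ => hI s

/-- coefficients of the derivative -/
theorem pc_deriv {f : ℝ → ℂ} (h : Nc f) (ξ : ℝ) : pc (deriv f) ξ = -(tau ξ * pc f ξ) := by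
  unfold pc
  have h1 : ∀ u : ℝ, HasDerivAt f (deriv f u) u := fun u =>
    ((h.sm.differentiable (by simp)) u).hasDerivAt
  have h2 : ∀ u : ℝ, HasDerivAt (fun u : ℝ => cexp (tau ξ * u)) (tau ξ * cexp (tau ξ * u)) u := by
    intro u
    have h3 : HasDerivAt (fun u : ℂ => cexp (tau ξ * u)) (cexp (tau ξ * u) * (tau ξ * 1)) (u : ℂ) :=
      ((hasDerivAt_id (u : ℂ)).const_mul (tau ξ)).cexp
    have h4 := h3.comp_ofReal
    convert h4 using 1
    ring
  have hc1 : Continuous (deriv f) := h.deriv.cont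
  have i1 : Integrable (f * fun u : ℝ => tau ξ * cexp (tau ξ * u)) := by
    apply Continuous.integrable_of_hasCompactSupport
    · exact h.cont.mul (by fun_prop)
    · exact h.cs.mul_right
  have i2 : Integrable (deriv f * fun u : ℝ => cexp (tau ξ * u)) := by
    apply Continuous.integrable_of_hasCompactSupport
    · exact hc1.mul (by fun_prop)
    · exact h.cs.deriv.mul_right
  have i3 : Integrable (f * fun u : ℝ => cexp (tau ξ * u)) := by
    apply Continuous.integrable_of_hasCompactSupport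
    · exact h.cont.mul (by fun_prop)
    · exact h.cs.mul_right
  have h5 := integral_mul_deriv_eq_deriv_mul_of_integrable (u := f) (v := fun u : ℝ => cexp (tau ξ * u)) (u' := deriv f)
    (v' := fun u : ℝ => tau ξ * cexp (tau ξ * u)) (fun u _ => h1 u) (fun u _ => h2 u) i1 i2 i3
  have h6 : ∫ u : ℝ, deriv f u * cexp (tau ξ * u) = -(tau ξ * ∫ u : ℝ, f u * cexp (tau ξ * u)) := by
    rw [← integral_const_mul, ← neg_eq_iff_eq_neg, ← h5]
    congr 1
    funext u
    ring
  rw [h6]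
  ring

end H11.SZ
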