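import Pool.Agent.H11.SZ.Li
open MeasureTheory Real Set Complex
namespace H11.SZ

theorem powexp_int (m : ℕ) {t : ℂ} (ht : 0 < t.re) :
    IntegrableOn (fun v : ℝ => (v : ℂ) ^ m * cexp (-(t * v))) (Ioi 0) := by
  have hm : (-1:ℝ) < m := by
    have : (0:ℝ) ≤ m := by positivity
    linarith
  have h := (integrableOn_rpow_mul_exp_neg_mul_rpow (p := 1) (s := m) (b := t.re) hm one_pos ht)
  refine h.mono' ?_ ?_
  · apply ContinuousOn.aestronglyMeasurable _ measurableSet_Ioi
    fun_prop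
  · refine (ae_restrict_iff' measurableSet_Ioi).2 (ae_of_all _ fun v hv => ?_)
    have hv' : (0:ℝ) < v := hv
    rw [norm_mul, norm_pow, Complex.norm_real, Complex.norm_exp, Real.norm_of_nonneg hv'.le]
    simp only [Real.rpow_natCast, Real.rpow_one, neg_re, mul_re, ofReal_re, ofReal_im, mul_zero,
      sub_zero]
    rw [neg_mul]

theorem powexp_zero {t : ℂ} (ht : 0 < t.re) :
    ∫ v in Ioi (0:ℝ), cexp (-(t * v)) = 1 / t := by
  have := integral_exp_mul_complex_Ioi (a := -t) (by simpa using ht) 0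
  simp only [ofReal_zero, mul_zero, Complex.exp_zero, neg_div_neg_eq] at this
  rw [← this]
  congr 1
  funext v
  ring_nf

theorem powexp (m : ℕ) {t : ℂ} (ht : 0 < t.re) :
    ∫ v in Ioi (0:ℝ), (v : ℂ) ^ m * cexp (-(t * v)) = m.factorial / t ^ (m + 1) := by
  have ht0 : t ≠ 0 := by
    rintro rfl
    simp at ht
  induction m with
  | zero => simpa using powexp_zero ht
  | succ m ih =>
    have hd : ∀ v ∈ Ioi (0:ℝ), HasDerivAt (fun v : ℝ => (v : ℂ) ^ (m + 1) * (-(cexp (-(t * v)) / t)))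
        ((m + 1 : ℂ) * (v : ℂ) ^ m * (-(cexp (-(t * v)) / t)) + (v : ℂ) ^ (m + 1) * cexp (-(t * v))) v := by
      intro v _
      have h1 : HasDerivAt (fun v : ℝ => (v : ℂ) ^ (m + 1)) ((m + 1 : ℂ) * (v : ℂ) ^ m) v := by
        have := (hasDerivAt_pow (m + 1) (v : ℂ)).comp_ofReal
        simpa using this
      have h2 : HasDerivAt (fun v : ℝ => -(cexp (-(t * v)) / t)) (cexp (-(t * v))) v := by
        have h3 : HasDerivAt (fun v : ℂ => -(cexp (-(t * v)) / t)) (-(cexp (-(t * v)) * (-(t * 1)) / t)) (v : ℂ) :=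
          ((((hasDerivAt_id (v : ℂ)).const_mul t).neg.cexp).div_const t).neg
        have h4 := h3.comp_ofReal
        convert h4 using 1
        field_simp
      exact h1.mul h2
    have hi1 : IntegrableOn (fun v : ℝ => (m + 1 : ℂ) * (v : ℂ) ^ m * (-(cexp (-(t * v)) / t))) (Ioi 0) := by
      have := (powexp_int m ht).const_mul (-((m + 1 : ℂ) / t))
      refine this.congr (ae_of_all _ fun v => ?_)
      simp only
      ring
    have hi2 := powexp_int (m + 1) ht
    have hlim : Filter.Tendsto (fun v : ℝ => (v : ℂ) ^ (m + 1) * (-(cexp (-(t * v)) / t))) Filter.atTop (nhds 0) := by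
      rw [tendsto_zero_iff_norm_tendsto_zero]
      have h5 : Filter.Tendsto (fun v : ℝ => v ^ (m + 1) * Real.exp (-t.re * v) * ‖t‖⁻¹) Filter.atTop (nhds (0 * ‖t‖⁻¹)) := by
        refine Filter.Tendsto.mul_const _ ?_
        exact tendsto_rpow_mul_exp_neg_mul_atTop_nhds_zero (m + 1 : ℕ) t.re ht |>.congr (by
          intro v; rw [Real.rpow_natCast])
      rw [zero_mul] at h5
      refine h5.congr' ?_
      filter_upwards [Filter.eventually_gt_atTop 0] with v hv
      rw [norm_mul, norm_pow, Complex.norm_real, norm_neg, norm_div, Complex.norm_exp, Real.norm_of_nonneg hv.le]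
      simp only [neg_re, mul_re, ofReal_re, ofReal_im, mul_zero, sub_zero, neg_mul]
      field_simp
    have hint := integral_Ioi_of_hasDerivAt_of_tendsto (a := 0) (f := fun v : ℝ => (v : ℂ) ^ (m + 1) * (-(cexp (-(t * v)) / t)))
      (f' := fun v : ℝ => (m + 1 : ℂ) * (v : ℂ) ^ m * (-(cexp (-(t * v)) / t)) + (v : ℂ) ^ (m + 1) * cexp (-(t * v)))
      (m := 0) (by apply Continuous.continuousWithinAt; fun_prop) hd (hi1.add hi2) hlim
    rw [integral_add hi1 hi2] at hint
    have h6 : ∫ v in Ioi (0:ℝ), (m + 1 : ℂ) * (v : ℂ) ^ m * (-(cexp (-(t * v)) / t))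
        = -((m + 1 : ℂ) / t) * ∫ v in Ioi (0:ℝ), (v : ℂ) ^ m * cexp (-(t * v)) := by
      rw [← integral_const_mul]
      congr 1
      funext v
      ring
    rw [h6, ih] at hint
    simp only [ofReal_zero, ne_eq, Nat.add_eq_zero_iff, one_ne_zero, and_false, not_false_eq_true, zero_pow,
      zero_mul, sub_zero] at hint
    have h7 : ∫ v in Ioi (0:ℝ), (v : ℂ) ^ (m + 1) * cexp (-(t * v)) = ((m + 1 : ℂ) / t) * (m.factorial / t ^ (m + 1)) := by
      linear_combination hint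
    rw [h7, Nat.factorial_succ]
    push_cast
    field_simp
    ring


theorem int_inv_pow {n : ℕ} (hn : 2 ≤ n) : Integrable (fun y : ℝ => (1 : ℂ) / tt y ^ n) := by
  have h := integrable_inv_one_add_sq
  refine h.mono' ?_ (ae_of_all _ fun y => ?_)
  · apply Continuous.aestronglyMeasurable
    exact continuous_const.div (continuous_tt.pow n) (fun y => pow_ne_zero _ (tt_ne y))
  · have h1 : ‖tt y‖ ^ 2 = 1 + y ^ 2 := by
      rw [← Complex.normSq_eq_norm_sq]
      simp [tt, Complex.normSq_apply]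
      ring
    have h2 : 1 ≤ ‖tt y‖ := by
      have := Complex.abs_re_le_norm (tt y)
      rwa [tt_re, abs_one] at this
    rw [norm_div, norm_one, norm_pow, one_div, ← h1]
    exact inv_anti₀ (by positivity) (pow_le_pow_right₀ h2 hn)

/-- `∫ e^{ts} / t^{m+2} dy = 2 π s^{m+1}/(m+1)!` for `s ≥ 0` -/
theorem inv_pow (m : ℕ) {s : ℝ} (hs : 0 ≤ s) :
    ∫ y : ℝ, cexp (tt y * s) * (1 / tt y ^ (m + 2)) = 2 * π * ((s : ℂ) ^ (m + 1) / (m + 1).factorial) := by
  set k : ℝ → ℂ := fun v => if 0 ≤ v then (v : ℂ) ^ (m + 1) / (m + 1).factorial else 0 with hk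
  have hf0 : ((m + 1).factorial : ℂ) ≠ 0 := by exact_mod_cast Nat.factorial_ne_zero _
  have hind : ∀ t : ℂ, (fun v : ℝ => k v * cexp (-(t * v)))
      =ᵐ[volume] (Ioi (0:ℝ)).indicator (fun v : ℝ => ((m + 1).factorial : ℂ)⁻¹ * ((v : ℂ) ^ (m + 1) * cexp (-(t * v)))) := by
    intro t
    refine ae_of_all _ fun v => ?_
    by_cases hv : 0 < v
    · rw [indicator_of_mem (show v ∈ Ioi 0 from hv)]
      simp only [hk, hv.le, if_true]
      field_simp
    · rw [indicator_of_notMem (show v ∉ Ioi 0 from hv)]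
      simp only [hk]
      rcases (not_lt.1 hv).lt_or_eq with h | h
      · rw [if_neg (not_le.2 h), zero_mul]
      · subst h; simp
  have hcont : Continuous k := by
    have : k = fun v : ℝ => ((max v 0 : ℝ) : ℂ) ^ (m + 1) / (m + 1).factorial := by
      funext v
      simp only [hk]
      split_ifs with h
      · rw [max_eq_left h]
      · rw [max_eq_right (not_le.1 h).le]; simp
    rw [this]
    fun_prop
  have h1 : Integrable (fun v : ℝ => k v * cexp (-(v : ℂ))) := by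
    have h2 := (hind 1)
    simp only [one_mul] at h2
    refine (integrable_congr h2).2 ?_
    rw [integrable_indicator_iff measurableSet_Ioi]
    have := (powexp_int (m + 1) (t := 1) (by simp)).const_mul (((m + 1).factorial : ℂ)⁻¹)
    simp only [one_mul] at this
    exact this
  have h3 : ∀ y : ℝ, (1 : ℂ) / tt y ^ (m + 2) = ∫ v : ℝ, k v * cexp (-(tt y * v)) := by
    intro y
    rw [integral_congr_ae (hind (tt y)), integral_indicator measurableSet_Ioi, integral_const_mul,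
      powexp (m + 1) (t := tt y) (by rw [tt_re]; exact one_pos)]
    rw [inv_mul_eq_div, div_div, mul_comm (tt y ^ (m + 1 + 1)), ← div_div, div_self hf0]
  have h4 := lap_inv (K := fun y => (1 : ℂ) / tt y ^ (m + 2)) h1 h3 (int_inv_pow (by omega)) hcont.continuousAt (s := s)
  rw [h4]
  simp only [hk, hs, if_true]


/-- the two-sided kernel `τ / (t (τ - t))` -/
theorem ker_int {τ : ℂ} (hτ : τ.re = 2) : Integrable (fun y : ℝ => τ / (tt y * (τ - tt y))) := by
  have hne : ∀ y : ℝ, τ - tt y ≠ 0 := fun y h => by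
    have := congrArg Complex.re h
    simp [hτ, tt_re] at this
    norm_num at this
  have h := (integrable_inv_one_add_sq).const_mul (‖τ‖ * (2 + 2 * ‖τ‖ ^ 2 + 2))
  refine h.mono' ?_ (ae_of_all _ fun y => ?_)
  · apply Continuous.aestronglyMeasurable
    exact continuous_const.div (continuous_tt.mul (continuous_const.sub continuous_tt))
      (fun y => mul_ne_zero (tt_ne y) (hne y))
  · have h1 : ‖tt y‖ ^ 2 = 1 + y ^ 2 := by
      rw [← Complex.normSq_eq_norm_sq]
      simp [tt, Complex.normSq_apply]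
      ring
    have h1' : ‖τ - tt y‖ ^ 2 = 1 + (τ.im - y) ^ 2 := by
      rw [← Complex.normSq_eq_norm_sq]
      simp [tt, Complex.normSq_apply, hτ]
      ring
    have h2 : 1 ≤ ‖tt y‖ := by nlinarith [norm_nonneg (tt y), sq_nonneg y]
    have h2' : 1 ≤ ‖τ - tt y‖ := by nlinarith [norm_nonneg (τ - tt y), sq_nonneg (τ.im - y)]
    have him : τ.im ^ 2 ≤ ‖τ‖ ^ 2 := by
      rw [← Complex.normSq_eq_norm_sq, Complex.normSq_apply]
      nlinarith [mul_self_nonneg τ.re]
    rw [norm_div, norm_mul]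
    have h3 : 1 + y ^ 2 ≤ (2 + 2 * ‖τ‖ ^ 2 + 2) * (‖tt y‖ * ‖τ - tt y‖) := by
      have h4 : (1 + y ^ 2) ≤ (2 + 2 * ‖τ‖ ^ 2) * (1 + (τ.im - y) ^ 2) := by
        have : y ^ 2 ≤ 2 * τ.im ^ 2 + 2 * (τ.im - y) ^ 2 := by nlinarith [sq_nonneg (2 * τ.im - y), sq_nonneg (y - 2 * (τ.im))]
        nlinarith [sq_nonneg (τ.im - y), mul_nonneg (sq_nonneg ‖τ‖) (sq_nonneg (τ.im - y))]
      have h5 : 1 + y ^ 2 ≤ (2 + 2 * ‖τ‖ ^ 2) * ‖τ - tt y‖ ^ 2 := by rw [h1']; exact h4
      have h6 : (1 + y ^ 2) ^ 2 ≤ ((2 + 2 * ‖τ‖ ^ 2 + 2) * (‖tt y‖ * ‖τ - tt y‖)) ^ 2 := by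
        calc (1 + y ^ 2) ^ 2 = (1 + y ^ 2) * ‖tt y‖ ^ 2 := by rw [h1]; ring
          _ ≤ ((2 + 2 * ‖τ‖ ^ 2) * ‖τ - tt y‖ ^ 2) * ‖tt y‖ ^ 2 := by gcongr
          _ ≤ ((2 + 2 * ‖τ‖ ^ 2 + 2) ^ 2 * ‖τ - tt y‖ ^ 2) * ‖tt y‖ ^ 2 := by
              gcongr
              nlinarith [sq_nonneg ‖τ‖]
          _ = _ := by ring
      exact le_of_sq_le_sq h6 (by positivity)
    rw [div_le_iff₀ (by positivity)]
    have h7 : ‖τ‖ * (2 + 2 * ‖τ‖ ^ 2 + 2) * (1 + y ^ 2)⁻¹ * (‖tt y‖ * ‖τ - tt y‖)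
        = ‖τ‖ * (((2 + 2 * ‖τ‖ ^ 2 + 2) * (‖tt y‖ * ‖τ - tt y‖)) * (1 + y ^ 2)⁻¹) := by ring
    rw [h7]
    have h8 : 1 ≤ ((2 + 2 * ‖τ‖ ^ 2 + 2) * (‖tt y‖ * ‖τ - tt y‖)) * (1 + y ^ 2)⁻¹ := by
      rw [← div_eq_mul_inv, le_div_iff₀ (by positivity), one_mul]
      exact h3
    nlinarith [norm_nonneg τ]

/-- `∫ e^{ts} τ / (t (τ - t)) dy = 2 π` for `s ≥ 0` -/
theorem ker_eval {τ : ℂ} (hτ : τ.re = 2) {s : ℝ} (hs : 0 ≤ s) :
    ∫ y : ℝ, cexp (tt y * s) * (τ / (tt y * (τ - tt y))) = 2 * π := by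
  have hne : ∀ y : ℝ, τ - tt y ≠ 0 := fun y h => by
    have := congrArg Complex.re h
    simp [hτ, tt_re] at this
    norm_num at this
  set k : ℝ → ℂ := fun v => if 0 ≤ v then 1 else cexp (τ * v) with hk
  have hcont : Continuous k := by
    have : k = fun v : ℝ => cexp (τ * ((min v 0 : ℝ) : ℂ)) := by
      funext v
      simp only [hk]
      split_ifs with h
      · rw [min_eq_right h]; simp
      · rw [min_eq_left (not_le.1 h).le]
    rw [this]
    fun_prop
  have hA : ∀ t : ℂ, 0 < t.re → IntegrableOn (fun v : ℝ => k v * cexp (-(t * v))) (Ioi 0) ∧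
      ∫ v in Ioi (0:ℝ), k v * cexp (-(t * v)) = 1 / t := by
    intro t ht
    have h1 : ∀ v ∈ Ioi (0:ℝ), k v * cexp (-(t * v)) = cexp (-(t * v)) := by
      intro v hv
      simp only [hk, (le_of_lt (show (0:ℝ) < v from hv)), if_true, one_mul]
    constructor
    · have := powexp_int 0 ht
      simp only [pow_zero, one_mul] at this
      exact this.congr_fun (fun v hv => (h1 v hv).symm) measurableSet_Ioi
    · rw [setIntegral_congr_fun measurableSet_Ioi h1, powexp_zero ht]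
  have hB : ∀ t : ℂ, t.re = 1 → IntegrableOn (fun v : ℝ => k v * cexp (-(t * v))) (Iic 0) ∧
      ∫ v in Iic (0:ℝ), k v * cexp (-(t * v)) = 1 / (τ - t) := by
    intro t ht
    have h1 : ∀ v ∈ Iic (0:ℝ), k v * cexp (-(t * v)) = cexp ((τ - t) * v) := by
      intro v hv
      simp only [hk]
      split_ifs with h
      · have : v = 0 := le_antisymm hv h
        subst this; simp
      · rw [← Complex.exp_add]; congr 1; ring
    have hre : 0 < (τ - t).re := by simp [hτ, ht]
    constructor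
    · exact (integrableOn_exp_mul_complex_Iic hre 0).congr_fun (fun v hv => (h1 v hv).symm) measurableSet_Iic
    · rw [setIntegral_congr_fun measurableSet_Iic h1, integral_exp_mul_complex_Iic hre 0]
      simp
  have hsplit : ∀ t : ℂ, t.re = 1 → Integrable (fun v : ℝ => k v * cexp (-(t * v))) ∧
      ∫ v : ℝ, k v * cexp (-(t * v)) = 1 / (τ - t) + 1 / t := by
    intro t ht
    have ht' : 0 < t.re := by rw [ht]; exact one_pos
    obtain ⟨a1, a2⟩ := hA t ht'
    obtain ⟨b1, b2⟩ := hB t ht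
    have hi : Integrable (fun v : ℝ => k v * cexp (-(t * v))) := by
      rw [← integrableOn_univ, ← Iic_union_Ioi (a := (0:ℝ))]
      exact b1.union a1
    refine ⟨hi, ?_⟩
    rw [← b2, ← a2]
    exact (intervalIntegral.integral_Iic_add_Ioi b1 a1).symm
  have h1 : Integrable (fun v : ℝ => k v * cexp (-(v : ℂ))) := by
    have := (hsplit 1 (by simp)).1
    simpa only [one_mul] using this
  have h3 : ∀ y : ℝ, τ / (tt y * (τ - tt y)) = ∫ v : ℝ, k v * cexp (-(tt y * v)) := by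
    intro y
    rw [(hsplit (tt y) (tt_re y)).2]
    have := hne y
    have := tt_ne y
    field_simp
    ring
  have h4 := lap_inv (K := fun y => τ / (tt y * (τ - tt y))) h1 h3 (ker_int hτ) hcont.continuousAt (s := s)
  rw [h4]
  simp only [hk, hs, if_true, mul_one]

end H11.SZ
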