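import Pool.Agent.H11.SZ.Ev
import Pool.Agent.H26.SZ.Jd

/-!
# The combination of the nine values and the diagonal terms is the functional `JJ`
-/

open MeasureTheory Real Set
open Pool.Agent.H26.SZ (JJ CC)

namespace H11.SZ

/-- value of type `1` and of type `log` -/
noncomputable def v1 (P : ℝ → ℝ) : ℝ := P 0
/-- value of type `Λ * log` -/
noncomputable def vLl (P : ℝ → ℝ) : ℝ := P 0 / 2 - ∫ v in (0:ℝ)..1, P v
/-- value of type `1 * y` -/
noncomputable def v1y (P α : ℝ → ℝ) : ℝ := P 0 * (∫ v in (0:ℝ)..1, α v) - ∫ v in (0:ℝ)..1, P v * α v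
/-- value of type `log * y` -/
noncomputable def vly (P α : ℝ → ℝ) : ℝ :=
  P 0 * (∫ v in (0:ℝ)..1, α v) - (∫ v in (0:ℝ)..1, P v * α v) - P 0 * ∫ v in (0:ℝ)..1, v * α v
/-- value of type `Λ * log * y` -/
noncomputable def vLly (P α : ℝ → ℝ) : ℝ :=
  (1 / 2) * (P 0 * (∫ v in (0:ℝ)..1, α v) - ∫ v in (0:ℝ)..1, P v * α v) - P 0 * (∫ v in (0:ℝ)..1, v * α v)
        - (∫ s in (0:ℝ)..1, P s * ∫ v in s..1, α v) + (1 / 2) * P 0 * (∫ v in (0:ℝ)..1, v ^ 2 * α v)
        + (∫ v in (0:ℝ)..1, P v) * ∫ v in (0:ℝ)..1, v * α v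
/-- value of type `1 * log * x` -/
noncomputable def v1lx (P : ℝ → ℝ) : ℝ := P 0 ^ 2 / 2 + (1 / 2) * ∫ v in (0:ℝ)..1, deriv P v ^ 2
/-- value of type `log * log * x` -/
noncomputable def vllx (P : ℝ → ℝ) : ℝ := (1 / 6) * (∫ v in (0:ℝ)..1, deriv P v ^ 2) - ∫ v in (0:ℝ)..1, P v ^ 2
/-- value of type `Λ * log * log * x` -/
noncomputable def vLllx (P : ℝ → ℝ) : ℝ :=
  (1 / 24) * (∫ v in (0:ℝ)..1, deriv P v ^ 2) - P 0 ^ 2 / 12 + (1 / 2) * P 0 * (∫ v in (0:ℝ)..1, P v)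
        - (3 / 2) * (∫ v in (0:ℝ)..1, P v ^ 2) + (∫ v in (0:ℝ)..1, P v) ^ 2 / 2

/-- value of the principal part of `1 * f`, `f = c₀ δ + y + (log * x)/L` -/
noncomputable def m1 (c0 : ℝ) (α P : ℝ → ℝ) : ℝ := c0 * v1 P + v1y P α + v1lx P
/-- value of the principal part of `(log/L) * f` -/
noncomputable def m2 (c0 : ℝ) (α P : ℝ → ℝ) : ℝ := c0 * v1 P + vly P α + vllx P
/-- value of the principal part of `(Λ/L) * (log/L) * f` -/
noncomputable def m3 (c0 : ℝ) (α P : ℝ → ℝ) : ℝ := c0 * vLl P + vLly P α + vLllx P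
/-- value of the diagonal sum `∑ f y₀ / n` -/
noncomputable def d1 (c0 : ℝ) (α P : ℝ → ℝ) : ℝ :=
  c0 ^ 2 + (∫ v in (0:ℝ)..1, v * α v ^ 2) + P 0 * ∫ v in (0:ℝ)..1, v * α v
/-- value of the diagonal sum `(1/L) ∑ (Λ * f) y₀ / n` -/
noncomputable def d2 (c0 : ℝ) (α : ℝ → ℝ) : ℝ := c0 * ∫ v in (0:ℝ)..1, v * α v

theorem prim_cont {P : ℝ → ℝ} (h : Rc P) : Continuous fun s => ∫ v in s..1, P v := by
  have : (fun s => ∫ v in s..1, P v) = fun s => -∫ v in (1:ℝ)..s, P v := by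
    funext s; rw [intervalIntegral.integral_symm]
  rw [this]
  exact (intervalIntegral.continuous_primitive (fun a b => h.cont.intervalIntegrable a b) 1).neg

theorem prim_deriv {P : ℝ → ℝ} (h : Rc P) (x : ℝ) : HasDerivAt (fun s => ∫ v in s..1, P v) (-P x) x :=
  intervalIntegral.integral_hasDerivAt_left (h.cont.intervalIntegrable _ _)
    (h.cont.stronglyMeasurableAtFilter _ _) h.cont.continuousAt

theorem parts {P α : ℝ → ℝ} (h : Rc P) (k : Rc α) :
    (∫ s in (0:ℝ)..1, P s * ∫ v in s..1, α v) + (∫ s in (0:ℝ)..1, α s * ∫ v in s..1, P v)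
      = (∫ v in (0:ℝ)..1, P v) * ∫ v in (0:ℝ)..1, α v := by
  have h1 : ∀ x ∈ uIcc (0:ℝ) 1, HasDerivAt (fun s => -((∫ v in s..1, P v) * ∫ v in s..1, α v))
      (P x * (∫ v in x..1, α v) + α x * ∫ v in x..1, P v) x := by
    intro x _
    exact (((prim_deriv h x).mul (prim_deriv k x)).neg).congr_deriv (by ring)
  have i1 : IntervalIntegrable (fun x => P x * (∫ v in x..1, α v)) volume 0 1 :=
    (h.cont.mul (prim_cont k)).intervalIntegrable _ _
  have i2 : IntervalIntegrable (fun x => α x * (∫ v in x..1, P v)) volume 0 1 :=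
    (k.cont.mul (prim_cont h)).intervalIntegrable _ _
  rw [← intervalIntegral.integral_add i1 i2,
    intervalIntegral.integral_eq_sub_of_hasDerivAt h1 (i1.add i2)]
  simp

theorem CC_int {P α : ℝ → ℝ} (h : Rc P) (k : Rc α) :
    ∫ v in (0:ℝ)..1, α v * CC P v = P 0 * ((1 / 2) * (∫ v in (0:ℝ)..1, α v) - (∫ v in (0:ℝ)..1, v * α v)
      - (1 / 2) * ∫ v in (0:ℝ)..1, v ^ 2 * α v) + (∫ v in (0:ℝ)..1, P v) * ((∫ v in (0:ℝ)..1, α v) - ∫ v in (0:ℝ)..1, v * α v)
      - (1 / 2) * (∫ v in (0:ℝ)..1, P v * α v) - ∫ v in (0:ℝ)..1, α v * ∫ u in v..1, P u := by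
  have hk := k.cont
  have hh := h.cont
  have hp := prim_cont h
  have i0 : IntervalIntegrable α volume 0 1 := hk.intervalIntegrable _ _
  have i1 : IntervalIntegrable (fun v => v * α v) volume 0 1 := (continuous_id.mul hk).intervalIntegrable _ _
  have i2 : IntervalIntegrable (fun v => v ^ 2 * α v) volume 0 1 := ((continuous_id.pow 2).mul hk).intervalIntegrable _ _
  have i3 : IntervalIntegrable (fun v => P v * α v) volume 0 1 := (hh.mul hk).intervalIntegrable _ _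
  have i4 : IntervalIntegrable (fun v => α v * ∫ u in v..1, P u) volume 0 1 := (hk.mul hp).intervalIntegrable _ _
  set P1 := ∫ v in (0:ℝ)..1, P v with hP1
  have e : (fun v => α v * CC P v) = fun v => (((P 0 * (1 / 2) + P1) * α v - (P 0 + P1) * (v * α v))
      - (P 0 * (1 / 2)) * (v ^ 2 * α v)) - ((1 / 2) * (P v * α v) + α v * ∫ u in v..1, P u) := by
    funext v
    unfold CC
    rw [← hP1]
    ring
  have j0 := i0.const_mul (P 0 * (1 / 2) + P1)
  have j1 := i1.const_mul (P 0 + P1)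
  have j2 := i2.const_mul (P 0 * (1 / 2))
  have j3 := i3.const_mul (1 / 2)
  rw [e, intervalIntegral.integral_sub ((j0.sub j1).sub j2) (j3.add i4), intervalIntegral.integral_sub (j0.sub j1) j2,
    intervalIntegral.integral_sub j0 j1, intervalIntegral.integral_add j3 i4, intervalIntegral.integral_const_mul,
    intervalIntegral.integral_const_mul, intervalIntegral.integral_const_mul, intervalIntegral.integral_const_mul]
  ring

/-- the combination -/
theorem JJ_eq {P α : ℝ → ℝ} (h : Rc P) (k : Rc α) (c0 : ℝ) :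
    d1 c0 α P - 2 * d2 c0 α + m1 c0 α P - 3 * m2 c0 α P + 2 * m3 c0 α P = JJ c0 α P := by
  have h1 := CC_int h k
  have h2 := parts h k
  unfold d1 d2 m1 m2 m3 v1 vLl v1y vly vLly v1lx vllx vLllx JJ
  rw [h1]
  linear_combination (-2) * h2

end H11.SZ
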