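import Pool.Agent.H11.SZ.Hi

/-!
# The nine values
-/

open MeasureTheory Real Set Complex
open scoped ContDiff

namespace H11.SZ

section

variable {P α : ℝ → ℝ} (h : Rc P) (k : Rc α)
include h

/-- type `1` -/
theorem ev_1 : HI (fun ξ => pc (cx P) ξ * II (fun t => R1 (tau ξ) t / (tau ξ - t))) (P 0 : ℂ) :=
  (h0 h).congr (fun ξ => by rw [(kn_1 (tau_re ξ)).2, mul_one]) rfl

/-- type `log` -/
theorem ev_l : HI (fun ξ => pc (cx P) ξ * II (fun t => Rl (tau ξ) t / (tau ξ - t))) (P 0 : ℂ) :=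
  (h0 h).congr (fun ξ => by rw [(kn_l (tau_re ξ)).2, mul_one]) rfl

/-- type `Λ * log` -/
theorem ev_Ll : HI (fun ξ => pc (cx P) ξ * II (fun t => RL (tau ξ) t * Rl (tau ξ) t / (tau ξ - t)))
    ((P 0 / 2 - ∫ v in (0:ℝ)..1, P v : ℝ) : ℂ) :=
  (((h0 h).mul (1 / 2)).sub (h1 h)).congr (fun ξ => by rw [(kn_Ll (tau_re ξ)).2]; ring) (by push_cast; ring)

include k

/-- type `1 * y` -/
theorem ev_1y : HI (fun p : ℝ × ℝ => pc (cx P) p.1 * pc (cx α) p.2 *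
      II (fun t => R1 (tau p.1) t * Ry (tau p.2) (tau p.1) t / (tau p.1 - t)))
    ((P 0 * (∫ v in (0:ℝ)..1, α v) - ∫ v in (0:ℝ)..1, P v * α v : ℝ) : ℂ) := by
  have T1 := (h0 h).prod (h1 k)
  have T2 := (h0 h).prod (he k 0)
  have T3 := HI.dbl (i_p h) (i_p k) (d_pp h k)
  have T4 := HI.dbl (i_p h) (i_e k) (d_pe h k)
  refine (((T1.sub T2).sub T3).add T4).congr (fun p => ?_) (by push_cast; ring)
  rw [(kn_1y (tau_re p.1) (tau_re p.2)).2]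
  have n2 := tau_ne p.2
  have n3 := add_ne_of_re2 (tau_re p.1) (tau_re p.2)
  field_simp
  ring

/-- type `log * y` -/
theorem ev_ly : HI (fun p : ℝ × ℝ => pc (cx P) p.1 * pc (cx α) p.2 *
      II (fun t => Rl (tau p.1) t * Ry (tau p.2) (tau p.1) t / (tau p.1 - t)))
    ((P 0 * (∫ v in (0:ℝ)..1, α v) - (∫ v in (0:ℝ)..1, P v * α v) - P 0 * ∫ v in (0:ℝ)..1, v * α v : ℝ) : ℂ) := by
  have T1 := (h0 h).prod (h1 k)
  have T2 := HI.dbl (i_p h) (i_p k) (d_pp h k)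
  have T3 := (h0 h).prod (h2 k)
  have T4 := (h0 h).prod (he k 1)
  refine (((T1.sub T2).sub T3).add T4).congr (fun p => ?_) (by push_cast; ring)
  rw [(kn_ly (tau_re p.1) (tau_re p.2)).2]
  have n2 := tau_ne p.2
  have n3 := add_ne_of_re2 (tau_re p.1) (tau_re p.2)
  field_simp
  ring

/-- type `Λ * log * y` -/
theorem ev_Lly : HI (fun p : ℝ × ℝ => pc (cx P) p.1 * pc (cx α) p.2 *
      II (fun t => RL (tau p.1) t * Rl (tau p.1) t * Ry (tau p.2) (tau p.1) t / (tau p.1 - t)))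
    (((1 / 2) * (P 0 * (∫ v in (0:ℝ)..1, α v) - ∫ v in (0:ℝ)..1, P v * α v) - P 0 * (∫ v in (0:ℝ)..1, v * α v)
        - (∫ s in (0:ℝ)..1, P s * ∫ v in s..1, α v) + (1 / 2) * P 0 * (∫ v in (0:ℝ)..1, v ^ 2 * α v)
        + (∫ v in (0:ℝ)..1, P v) * ∫ v in (0:ℝ)..1, v * α v : ℝ) : ℂ) := by
  have T1 := ((h0 h).prod (h1 k)).mul (1 / 2)
  have T2 := (HI.dbl (i_p h) (i_p k) (d_pp h k)).mul (1 / 2)
  have T3 := (h0 h).prod (h2 k)
  have T4 := HI.dbl (i_p h) (i_d k) (d_pd h k)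
  have T5 := (h0 h).prod (h3 k)
  have T6 := (h1 h).prod (h2 k)
  have T7 := (h0 h).prod (he k 2)
  have T8 := (h1 h).prod (he k 1)
  refine ((((((T1.sub T2).sub T3).sub T4).add T5).add T6).sub (T7.add T8)).congr (fun p => ?_) (by push_cast; ring)
  rw [(kn_Lly (tau_re p.1) (tau_re p.2)).2]
  have n1 := tau_ne p.1
  have n2 := tau_ne p.2
  have n3 := add_ne_of_re2 (tau_re p.1) (tau_re p.2)
  field_simp
  ring

end

section

variable {P : ℝ → ℝ} (h : Rc P)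
include h

/-- type `1 * log * x` -/
theorem ev_1lx : HI (fun p : ℝ × ℝ => pc (cx P) p.1 * pc (cx P) p.2 *
      II (fun t => R1 (tau p.1) t * Rl (tau p.1) t * Rx (tau p.2) (tau p.1) t / (tau p.1 - t)))
    ((P 0 ^ 2 / 2 + (1 / 2) * ∫ v in (0:ℝ)..1, deriv P v ^ 2 : ℝ) : ℂ) := by
  have T1 := HI.dbl (i_t h) (i_p h) (d_tp h h)
  have T2 := (HI.dbl (i_t h) (i_t h) (d_tt h h)).mul (1 / 2)
  refine (T1.add T2).congr (fun p => ?_) (by
    rw [PdP h]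
    simp only [← pow_two]
    push_cast
    ring)
  rw [(kn_1lx (tau_re p.1) (tau_re p.2)).2]
  have n3 := add_ne_of_re2 (tau_re p.1) (tau_re p.2)
  field_simp

/-- type `log * log * x` -/
theorem ev_llx : HI (fun p : ℝ × ℝ => pc (cx P) p.1 * pc (cx P) p.2 *
      II (fun t => Rl (tau p.1) t * Rl (tau p.1) t * Rx (tau p.2) (tau p.1) t / (tau p.1 - t)))
    (((1 / 6) * (∫ v in (0:ℝ)..1, deriv P v ^ 2) - ∫ v in (0:ℝ)..1, P v ^ 2 : ℝ) : ℂ) := by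
  have T1 := (HI.dbl (i_t h) (i_t h) (d_tt h h)).mul (1 / 6)
  have T2 := (HI.dbl (i_t h) (i_p h) (d_tp h h)).mul (1 / 2)
  have T3 := (HI.dbl (i_p h) (i_t h) (d_pt h h)).mul (1 / 2)
  have T4 := HI.dbl (i_p h) (i_p h) (d_pp h h)
  have w5 : (∫ s in (0:ℝ)..1, P s * deriv P s) = ∫ s in (0:ℝ)..1, deriv P s * P s := by
    congr 1; funext s; ring
  refine ((T1.add (T2.sub T3)).sub T4).congr (fun p => ?_) (by
    rw [w5, PdP h]
    simp only [← pow_two]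
    push_cast
    ring)
  rw [(kn_llx (tau_re p.1) (tau_re p.2)).2]
  have n3 := add_ne_of_re2 (tau_re p.1) (tau_re p.2)
  field_simp

/-- type `Λ * log * log * x` -/
theorem ev_Lllx : HI (fun p : ℝ × ℝ => pc (cx P) p.1 * pc (cx P) p.2 *
      II (fun t => RL (tau p.1) t * Rl (tau p.1) t * Rl (tau p.1) t * Rx (tau p.2) (tau p.1) t / (tau p.1 - t)))
    (((1 / 24) * (∫ v in (0:ℝ)..1, deriv P v ^ 2) - P 0 ^ 2 / 12 + (1 / 2) * P 0 * (∫ v in (0:ℝ)..1, P v)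
        - (3 / 2) * (∫ v in (0:ℝ)..1, P v ^ 2) + (∫ v in (0:ℝ)..1, P v) ^ 2 / 2 : ℝ) : ℂ) := by
  have T1 := (HI.dbl (i_t h) (i_t h) (d_tt h h)).mul (1 / 24)
  have T2 := (HI.dbl (i_t h) (i_p h) (d_tp h h)).mul (1 / 6)
  have T3 := (HI.dbl (i_p h) (i_t h) (d_pt h h)).mul (1 / 3)
  have T4 := (HI.dbl (i_p h) (i_p h) (d_pp h h)).mul (3 / 2)
  have T5 := ((h1 h).prod (h0 h)).mul (1 / 2)
  have T6 := HI.dbl (i_d h) (i_p h) (d_dp h h)
  have w5 : (∫ s in (0:ℝ)..1, P s * deriv P s) = ∫ s in (0:ℝ)..1, deriv P s * P s := by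
    congr 1; funext s; ring
  refine (((T1.add (T2.sub T3)).add (T5.sub T4)).add T6).congr (fun p => ?_) (by
    rw [w5, PdP h, PPi h]
    simp only [← pow_two]
    push_cast
    ring)
  rw [(kn_Lllx (tau_re p.1) (tau_re p.2)).2]
  have n1 := tau_ne p.1
  have n3 := add_ne_of_re2 (tau_re p.1) (tau_re p.2)
  field_simp

end

end H11.SZ
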