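import Pool.Agent.H11.SZ.Mst

/-!
# Block M: the statement `MStat`
-/

open Finset Filter Topology MeasureTheory
open scoped ArithmeticFunction.vonMangoldt ArithmeticFunction.Moebius ArithmeticFunction.zeta

namespace H11.SZ

theorem rc_of {θ : ℝ} (hθ : θ ≤ 1) {P : ℝ → ℝ} (h : H82SZ.Adm θ P) : Rc P :=
  ⟨h.smooth, h.cpt, fun v hv => h.zero v (hθ.trans hv)⟩

theorem v1y_eq {P α : ℝ → ℝ} (h : Rc P) (k : Rc α) : v1y P α = ∫ v in (0 : ℝ)..1, α v * (P 0 - P v) := by
  have hk := k.cont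
  have hh := h.cont
  have c3 : IntervalIntegrable (fun v => α v) volume 0 1 := hk.intervalIntegrable _ _
  have c2 : IntervalIntegrable (fun v => P v * α v) volume 0 1 := Continuous.intervalIntegrable (by fun_prop) _ _
  unfold v1y
  rw [← intervalIntegral.integral_const_mul, ← intervalIntegral.integral_sub (c3.const_mul _) c2]
  congr 1
  funext v
  ring

theorem vly_eq {P α : ℝ → ℝ} (h : Rc P) (k : Rc α) : vly P α = ∫ v in (0 : ℝ)..1, α v * ((1 - v) * P 0 - P v) := by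
  have hk := k.cont
  have hh := h.cont
  have c3 : IntervalIntegrable (fun v => α v) volume 0 1 := hk.intervalIntegrable _ _
  have c1 : IntervalIntegrable (fun v => v * α v) volume 0 1 := Continuous.intervalIntegrable (by fun_prop) _ _
  have c2 : IntervalIntegrable (fun v => P v * α v) volume 0 1 := Continuous.intervalIntegrable (by fun_prop) _ _
  unfold vly
  rw [← intervalIntegral.integral_const_mul, ← intervalIntegral.integral_const_mul,
    ← intervalIntegral.integral_sub (c3.const_mul _) c2,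
    ← intervalIntegral.integral_sub ((c3.const_mul _).sub c2) (c1.const_mul _)]
  congr 1
  funext v
  ring

theorem vLly_eq {P α : ℝ → ℝ} (h : Rc P) (k : Rc α) : vLly P α =
    ∫ v in (0 : ℝ)..1, α v * ((P 0 - P v) / 2 - v * P 0 + v ^ 2 * P 0 / 2 - (∫ u in (0 : ℝ)..1, P u) * (1 - v) +
      ∫ u in v..1, P u) := by
  have h1 := H82SZ.int_aux3 k.cont h.cont (prim_cont h) (P 0) (∫ u in (0 : ℝ)..1, P u)
  have h2 := parts h k
  have h3 : (∫ v in (0 : ℝ)..1, α v * P v) = ∫ v in (0 : ℝ)..1, P v * α v := by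
    congr 1; funext v; ring
  rw [h1, h3]
  unfold vLly
  linear_combination (-1) * h2

/-- block M -/
theorem mstat {ε : ℝ} (hε : 0 < ε) {α P : ℝ → ℝ} (hα : H82SZ.Adm (1 - ε) α) (hP : H82SZ.Adm (1 / 2 - ε) P) :
    H82SZ.MStat α P := by
  have h : Rc P := rc_of (by linarith) hP
  have k : Rc α := rc_of (by linarith) hα
  have x1 : v1lx P = (∫ v in (0 : ℝ)..1, deriv P v ^ 2) / 2 + P 0 ^ 2 / 2 := by unfold v1lx; ring
  have x2 : vllx P = (∫ v in (0 : ℝ)..1, deriv P v ^ 2) / 6 - ∫ v in (0 : ℝ)..1, P v ^ 2 := by unfold vllx; ring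
  have x3 : vLllx P = (∫ v in (0 : ℝ)..1, deriv P v ^ 2) / 24 - P 0 ^ 2 / 12 + P 0 * (∫ u in (0 : ℝ)..1, P u) / 2
      - 3 / 2 * (∫ v in (0 : ℝ)..1, P v ^ 2) + (∫ u in (0 : ℝ)..1, P u) ^ 2 / 2 := by unfold vLllx; ring
  refine ⟨L_1 h le_rfl, L_l h (j := 0) (Nat.zero_le 1), L_l h (j := 1) le_rfl, L_Ll h (j := 0) (Nat.zero_le 1), ?_, ?_, ?_, ?_,
    ?_, ?_, ?_, ?_⟩
  · rw [← v1y_eq h k]; exact L_1y h k (j := 1) le_rfl
  · rw [← vly_eq h k]; exact L_ly h k (j := 0) (Nat.zero_le 1)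
  · rw [← vly_eq h k]; exact L_ly h k (j := 1) le_rfl
  · rw [← vLly_eq h k]; exact L_Lly h k (j := 0) (Nat.zero_le 1)
  · rw [← x1]; exact L_1lx h (j := 1) le_rfl
  · rw [← x2]; exact L_llx h (j := 0) (Nat.zero_le 1)
  · rw [← x2]; exact L_llx h (j := 1) le_rfl
  · rw [← x3]; exact L_Lllx h (j := 0) (Nat.zero_le 1)

end H11.SZ
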