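import Pool.Agent.H11.SZ.Pc
import Pool.Agent.H98.SZ.Defs

/-!
# Fourier-Laplace data exist for smooth compactly supported functions
-/

open MeasureTheory Real Set Complex
open scoped ContDiff

namespace H11.SZ

theorem fl {f : ℝ → ℂ} (h : Nc f) : H98.SZ.FL f (pc f) := by
  refine ⟨(pc_cont h).measurable, fun K => ?_, fun u => ?_⟩
  · have h1 := (pc_mul_int h (g := fun ξ => (((1 + |ξ|) ^ K : ℝ) : ℂ)) (C := 1) (k := K)
      (by apply Continuous.aestronglyMeasurable; fun_prop)
      (fun ξ => by rw [Complex.norm_real, Real.norm_of_nonneg (by positivity), one_mul])).norm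
    refine h1.congr (ae_of_all _ fun ξ => ?_)
    simp only
    rw [norm_mul, Complex.norm_real, Real.norm_of_nonneg (by positivity)]
  · rw [← pc_inv h u]
    congr 1
    funext ξ
    simp only [tau, mul_comm I]

theorem nc_ofReal {P : ℝ → ℝ} (h1 : ContDiff ℝ (⊤ : ℕ∞) P) (h2 : HasCompactSupport P) :
    Nc (fun u => (P u : ℂ)) :=
  ⟨Complex.ofRealCLM.contDiff.comp h1, h2.comp_left (g := fun x : ℝ => (x : ℂ)) (by simp)⟩

/-- Fourier-Laplace data for real smooth compactly supported functions -/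
theorem fl_real {P : ℝ → ℝ} (h1 : ContDiff ℝ (⊤ : ℕ∞) P) (h2 : HasCompactSupport P) :
    H98.SZ.FL (fun u => (P u : ℂ)) (pc fun u => (P u : ℂ)) := fl (nc_ofReal h1 h2)

end H11.SZ
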