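import Pool.Agent.H11.SZ.En
import Pool.Agent.H11.SZ.Fl
import Pool.Agent.H98.SZ.Nfg

/-!
# Values of the limit functionals `NL`
-/

open MeasureTheory Real Set Complex

namespace H11.SZ

theorem tt_eq (y : ℝ) : (1 + I * (y : ℂ)) = tt y := by unfold tt; ring
theorem tau_eq (ξ : ℝ) : (2 + I * (ξ : ℂ)) = tau ξ := by unfold tau; ring

/-- `NL` through `II` -/
theorem NL_II (ph : ℝ → ℂ) (R : ℂ → ℂ → ℂ) :
    H98.SZ.NL ph R = ∫ ξ : ℝ, ph ξ * II (fun t => R t (tau ξ) / (tau ξ - t)) := by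
  unfold H98.SZ.NL
  congr 1
  funext ξ
  unfold II H98.SZ.NI
  rw [← integral_const_mul, ← integral_const_mul]
  congr 1
  funext y
  rw [tt_eq, tau_eq]
  push_cast
  ring

/-- swapping the coefficient integral and the `t`-integral -/
theorem II_swap {K : ℂ → ℂ} {b : ℝ → ℂ} {k : ℝ → ℂ → ℂ}
    (hi : Integrable (fun p : ℝ × ℝ => b p.1 * (cexp (tt p.2) * (K (tt p.2) * k p.1 (tt p.2))))) :
    II (fun t => K t * ∫ η, b η * k η t) = ∫ η, b η * II (fun t => K t * k η t) := by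
  unfold II
  have h1 : ∀ y : ℝ, cexp (tt y) * (K (tt y) * ∫ η, b η * k η (tt y)) = ∫ η, b η * (cexp (tt y) * (K (tt y) * k η (tt y))) := by
    intro y
    rw [← integral_const_mul, ← integral_const_mul]
    congr 1
    funext η
    ring
  simp_rw [h1]
  have h2 := integral_integral_swap (f := fun (η : ℝ) (y : ℝ) => b η * (cexp (tt y) * (K (tt y) * k η (tt y)))) hi
  rw [← h2, ← integral_const_mul]
  congr 1
  funext η
  rw [integral_const_mul]
  ring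

/-- a product of an integrable coefficient, an integrable kernel and a bounded continuous function -/
theorem int_bdd {b : ℝ → ℂ} {K : ℂ → ℂ} (hb : Integrable b) (hK : Li K) {g : ℝ × ℝ → ℂ} (hg : Continuous g) {C : ℝ}
    (hC : ∀ p, ‖g p‖ ≤ C) :
    Integrable (fun p : ℝ × ℝ => b p.1 * (cexp (tt p.2) * K (tt p.2)) * g p) := by
  have h1 : Integrable (fun p : ℝ × ℝ => b p.1 * (cexp (tt p.2) * K (tt p.2))) := hb.mul_prod hK
  exact h1.mul_bdd (c := C) hg.aestronglyMeasurable (Filter.Eventually.of_forall hC)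

theorem re_tt_tau (p : ℝ × ℝ) : (tt p.2 + tau p.1).re = 3 := by
  rw [add_re, tt_re, tau_re]; norm_num

theorem re_tau_tau (ξ η : ℝ) : (tau ξ + tau η).re = 4 := by
  rw [add_re, tau_re, tau_re]; norm_num

theorem tt_tau_ne (p : ℝ × ℝ) : tt p.2 + tau p.1 ≠ 0 := by
  intro h
  have := re_tt_tau p
  rw [h] at this
  simp at this

theorem tau_tau_ne (ξ η : ℝ) : tau ξ + tau η ≠ 0 := add_ne_of_re2 (tau_re ξ) (tau_re η)

theorem inv_le {z : ℂ} {c : ℝ} (hc : 1 ≤ c) (h : z.re = c) : ‖z⁻¹‖ ≤ 1 := by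
  rw [norm_inv]
  apply inv_le_one_of_one_le₀
  have := Complex.re_le_norm z
  linarith

/-- the `y` slot -/
theorem swap_y {K : ℂ → ℂ} (hK : Li K) {b : ℝ → ℂ} (hb : Integrable b) (ξ : ℝ) :
    II (fun t => K t * ∫ η : ℝ, b η * Ry (tau η) (tau ξ) t) = ∫ η, b η * II (fun t => K t * Ry (tau η) (tau ξ) t) := by
  apply II_swap
  have h := int_bdd hb hK (g := fun p : ℝ × ℝ => (tt p.2 + tau p.1)⁻¹ - (tau ξ + tau p.1)⁻¹) ?_ (C := 1 + 1) ?_
  · refine h.congr (Filter.Eventually.of_forall fun p => ?_)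
    simp only [Ry]
    rw [one_div, one_div]
    ring
  · have h1 := continuous_tt
    have h2 := continuous_tau
    refine Continuous.sub ?_ ?_
    · exact Continuous.inv₀ (by fun_prop) tt_tau_ne
    · exact Continuous.inv₀ (by fun_prop) (fun p => tau_tau_ne ξ p.1)
  · intro p
    refine (norm_sub_le _ _).trans (add_le_add ?_ ?_)
    · exact inv_le (c := 3) (by norm_num) (re_tt_tau p)
    · exact inv_le (c := 4) (by norm_num) (re_tau_tau ξ p.1)

/-- the `x` slot -/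
theorem swap_x {K : ℂ → ℂ} (hK : Li K) (hK1 : Li (fun t => t * K t)) {b : ℝ → ℂ} (hb : Integrable b)
    (hb1 : Integrable fun η => tau η * b η) (ξ : ℝ) :
    II (fun t => K t * ∫ η : ℝ, b η * Rx (tau η) (tau ξ) t) = ∫ η, b η * II (fun t => K t * Rx (tau η) (tau ξ) t) := by
  apply II_swap
  have hc : Continuous (fun p : ℝ × ℝ => (tau ξ + tau p.1)⁻¹) := by
    have h2 := continuous_tau
    exact Continuous.inv₀ (by fun_prop) (fun p => tau_tau_ne ξ p.1)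
  have hbd : ∀ p : ℝ × ℝ, ‖(tau ξ + tau p.1)⁻¹‖ ≤ 1 := fun p => inv_le (c := 4) (by norm_num) (re_tau_tau ξ p.1)
  have h1 := int_bdd hb hK1 hc hbd
  have h2 := int_bdd hb1 hK hc hbd
  refine (h1.add h2).congr (Filter.Eventually.of_forall fun p => ?_)
  simp only [Rx, Pi.add_apply]
  have := tau_tau_ne ξ p.1
  field_simp

/-- one coefficient integral: value -/
theorem NL_one {ph : ℝ → ℂ} {R : ℂ → ℂ → ℂ} {K : ℂ → ℂ → ℂ} {v : ℂ}
    (h : HI (fun ξ => ph ξ * II (fun t => K (tau ξ) t / (tau ξ - t))) v)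
    (e : ∀ y ξ, R (tt y) (tau ξ) = K (tau ξ) (tt y)) :
    H98.SZ.NL ph R = v := by
  rw [NL_II, ← h.2]
  congr 1
  funext ξ
  rw [II_congr (H := fun t => K (tau ξ) t / (tau ξ - t)) (fun y => by rw [e])]

/-- two coefficient integrals: value -/
theorem NL_two {a b : ℝ → ℂ} {R : ℂ → ℂ → ℂ} {K0 : ℂ → ℂ → ℂ} {k : ℂ → ℂ → ℂ → ℂ} {v : ℂ}
    (h : HI (fun p : ℝ × ℝ => a p.1 * b p.2 * II (fun t => K0 (tau p.1) t * k (tau p.2) (tau p.1) t / (tau p.1 - t))) v)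
    (sw : ∀ ξ, II (fun t => K0 (tau ξ) t / (tau ξ - t) * ∫ η : ℝ, b η * k (tau η) (tau ξ) t)
      = ∫ η, b η * II (fun t => K0 (tau ξ) t / (tau ξ - t) * k (tau η) (tau ξ) t))
    (e : ∀ y ξ, R (tt y) (tau ξ) = K0 (tau ξ) (tt y) * ∫ η : ℝ, b η * k (tau η) (tau ξ) (tt y)) :
    H98.SZ.NL a R = v := by
  rw [NL_II, ← h.2, Measure.volume_eq_prod, integral_prod _ h.1]
  congr 1
  funext ξ
  rw [II_congr (H := fun t => K0 (tau ξ) t / (tau ξ - t) * ∫ η : ℝ, b η * k (tau η) (tau ξ) t) (fun y => by rw [e]; ring),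
    sw ξ, ← integral_const_mul]
  congr 1
  funext η
  have e2 : ∀ t, K0 (tau ξ) t / (tau ξ - t) * k (tau η) (tau ξ) t = K0 (tau ξ) t * k (tau η) (tau ξ) t / (tau ξ - t) := by
    intro t; ring
  simp only [e2]
  ring

/-- the `y` slot of helper98 -/
noncomputable def Sy (b : ℝ → ℂ) (t τ : ℂ) : ℂ := ∫ η : ℝ, b η * ((τ - t) / ((t + (2 + I * η)) * (τ + (2 + I * η))))

/-- the `log * x` slot of helper98 -/
noncomputable def Slx (b : ℝ → ℂ) (t τ : ℂ) : ℂ :=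
  (τ - t) / t ^ 2 * ∫ η : ℝ, b η * ((t + (2 + I * η)) / (τ + (2 + I * η)))

theorem Sy_eq (b : ℝ → ℂ) (y ξ : ℝ) : Sy b (tt y) (tau ξ) = ∫ η : ℝ, b η * Ry (tau η) (tau ξ) (tt y) := by
  unfold Sy
  congr 1
  funext η
  have h1 := tt_tau_ne (η, y)
  have h2 := tau_tau_ne ξ η
  simp only at h1
  congr 1
  unfold Ry
  rw [tau_eq]
  field_simp
  ring

theorem Slx_eq (b : ℝ → ℂ) (y ξ : ℝ) :
    Slx b (tt y) (tau ξ) = Rl (tau ξ) (tt y) * ∫ η : ℝ, b η * Rx (tau η) (tau ξ) (tt y) := by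
  unfold Slx Rl Rx
  simp only [tau_eq]

section

variable {P α : ℝ → ℝ} (h : Rc P) (k : Rc α)
include h

theorem NL_1 : H98.SZ.NL (pc (cx P)) (fun t τ => τ / t * 1 * 1) = (v1 P : ℂ) :=
  NL_one (K := R1) (ev_1 h) (fun y ξ => by unfold R1; ring)

theorem NL_l : H98.SZ.NL (pc (cx P)) (fun t τ => (τ - t) / t ^ 2 * 1 * 1) = (v1 P : ℂ) :=
  NL_one (K := Rl) (ev_l h) (fun y ξ => by unfold Rl; ring)

theorem NL_Ll : H98.SZ.NL (pc (cx P)) (fun t τ => (τ - t) / t ^ 2 * ((τ - t) / (t * τ)) * 1) = (vLl P : ℂ) :=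
  NL_one (K := fun τ t => RL τ t * Rl τ t) (ev_Ll h) (fun y ξ => by unfold Rl RL; ring)

theorem NL_1lx : H98.SZ.NL (pc (cx P)) (fun t τ => τ / t * 1 * Slx (pc (cx P)) t τ) = (v1lx P : ℂ) := by
  refine NL_two (K0 := fun τ t => R1 τ t * Rl τ t) (k := Rx) (ev_1lx h) (fun ξ => ?_) (fun y ξ => ?_)
  · have hτ := tau_re ξ
    refine swap_x (K := fun t => R1 (tau ξ) t * Rl (tau ξ) t / (tau ξ - t)) ?_ ?_ (i_p h) (i_t h) ξ
    · refine Li_congr (K := fun t => tau ξ * (1 / t ^ (1 + 2))) (fun y => ?_) ((Li_pow 1).smul _)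
      unfold R1 Rl
      have := tt_ne y
      have := tau_sub_ne hτ y
      field_simp
    · refine Li_congr (K := fun t => tau ξ * (1 / t ^ (0 + 2))) (fun y => ?_) ((Li_pow 0).smul _)
      unfold R1 Rl
      have := tt_ne y
      have := tau_sub_ne hτ y
      field_simp
  · rw [Slx_eq]
    unfold R1
    ring

theorem NL_llx : H98.SZ.NL (pc (cx P)) (fun t τ => (τ - t) / t ^ 2 * 1 * Slx (pc (cx P)) t τ) = (vllx P : ℂ) := by
  refine NL_two (K0 := fun τ t => Rl τ t * Rl τ t) (k := Rx) (ev_llx h) (fun ξ => ?_) (fun y ξ => ?_)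
  · have hτ := tau_re ξ
    refine swap_x (K := fun t => Rl (tau ξ) t * Rl (tau ξ) t / (tau ξ - t)) ?_ ?_ (i_p h) (i_t h) ξ
    · refine Li_congr (K := fun t => tau ξ * (1 / t ^ (2 + 2)) + (-1) * (1 / t ^ (1 + 2))) (fun y => ?_)
        (((Li_pow 2).smul _).add ((Li_pow 1).smul _))
      unfold Rl
      have := tt_ne y
      have := tau_sub_ne hτ y
      field_simp
      ring
    · refine Li_congr (K := fun t => tau ξ * (1 / t ^ (1 + 2)) + (-1) * (1 / t ^ (0 + 2))) (fun y => ?_)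
        (((Li_pow 1).smul _).add ((Li_pow 0).smul _))
      unfold Rl
      have := tt_ne y
      have := tau_sub_ne hτ y
      field_simp
      ring
  · rw [Slx_eq]
    unfold Rl
    ring

theorem NL_Lllx : H98.SZ.NL (pc (cx P)) (fun t τ => (τ - t) / t ^ 2 * ((τ - t) / (t * τ)) * Slx (pc (cx P)) t τ)
    = (vLllx P : ℂ) := by
  refine NL_two (K0 := fun τ t => RL τ t * Rl τ t * Rl τ t) (k := Rx) (ev_Lllx h) (fun ξ => ?_) (fun y ξ => ?_)
  · have hτ := tau_re ξ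
    have hτ0 := tau_ne ξ
    refine swap_x (K := fun t => RL (tau ξ) t * Rl (tau ξ) t * Rl (tau ξ) t / (tau ξ - t)) ?_ ?_ (i_p h) (i_t h) ξ
    · refine Li_congr (K := fun t => (tau ξ * (1 / t ^ (3 + 2)) + (-2) * (1 / t ^ (2 + 2))) + (1 / tau ξ) * (1 / t ^ (1 + 2)))
        (fun y => ?_) ((((Li_pow 3).smul _).add ((Li_pow 2).smul _)).add ((Li_pow 1).smul _))
      unfold RL Rl
      have := tt_ne y
      have := tau_sub_ne hτ y
      field_simp
      ring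
    · refine Li_congr (K := fun t => (tau ξ * (1 / t ^ (2 + 2)) + (-2) * (1 / t ^ (1 + 2))) + (1 / tau ξ) * (1 / t ^ (0 + 2)))
        (fun y => ?_) ((((Li_pow 2).smul _).add ((Li_pow 1).smul _)).add ((Li_pow 0).smul _))
      unfold RL Rl
      have := tt_ne y
      have := tau_sub_ne hτ y
      field_simp
      ring
  · rw [Slx_eq]
    unfold RL Rl
    ring

include k

theorem NL_1y : H98.SZ.NL (pc (cx P)) (fun t τ => τ / t * 1 * Sy (pc (cx α)) t τ) = (v1y P α : ℂ) := by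
  refine NL_two (K0 := R1) (k := Ry) (ev_1y h k) (fun ξ => ?_) (fun y ξ => ?_)
  · exact swap_y (kn_1 (tau_re ξ)).1 (i_p k) ξ
  · rw [Sy_eq]
    unfold R1
    ring

theorem NL_ly : H98.SZ.NL (pc (cx P)) (fun t τ => (τ - t) / t ^ 2 * 1 * Sy (pc (cx α)) t τ) = (vly P α : ℂ) := by
  refine NL_two (K0 := Rl) (k := Ry) (ev_ly h k) (fun ξ => ?_) (fun y ξ => ?_)
  · exact swap_y (kn_l (tau_re ξ)).1 (i_p k) ξ
  · rw [Sy_eq]
    unfold Rl
    ring

theorem NL_Lly : H98.SZ.NL (pc (cx P)) (fun t τ => (τ - t) / t ^ 2 * ((τ - t) / (t * τ)) * Sy (pc (cx α)) t τ)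
    = (vLly P α : ℂ) := by
  refine NL_two (K0 := fun τ t => RL τ t * Rl τ t) (k := Ry) (ev_Lly h k) (fun ξ => ?_) (fun y ξ => ?_)
  · exact swap_y (kn_Ll (tau_re ξ)).1 (i_p k) ξ
  · rw [Sy_eq]
    unfold RL Rl
    ring

end

end H11.SZ
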