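import Pool.Agent.H11.SZ.Tb
import Pool.Agent.H11.SZ.Nl

/-!
# From the principal part `PRIN` to the finite sums `Prj`
-/

open Finset Filter Topology
open scoped ArithmeticFunction.vonMangoldt ArithmeticFunction.Moebius ArithmeticFunction.zeta

namespace H11.SZ

theorem om_eq {T : ℝ} : H98.SZ.om T = H82SZ.om T := by
  unfold H98.SZ.om H82SZ.om
  rw [div_div]
  congr 1
  ring

theorem win_eq {T : ℝ} (hT : 3 ≤ T) (r : ℝ) : H98.SZ.win T r = H82SZ.wt T r := by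
  have hL := log_ge hT
  unfold H98.SZ.win H82SZ.wt
  congr 2
  rw [div_pow, div_pow, Real.sq_sqrt (by linarith)]
  have hT0 : T ≠ 0 := by linarith
  have hL0 : Real.log T ≠ 0 := by linarith
  field_simp

theorem rho_le (k n : ℕ) : |H98.SZ.rho k n| ≤ 1 := by
  unfold H98.SZ.rho
  set m := k / Nat.gcd k n
  rw [abs_div]
  have h1 : |((ArithmeticFunction.moebius m : ℤ) : ℝ)| ≤ 1 := by
    have := ArithmeticFunction.abs_moebius_le_one (n := m)
    exact_mod_cast this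
  rcases Nat.eq_zero_or_pos (Nat.totient m) with h | h
  · rw [h]; simp
  · have h2 : (1 : ℝ) ≤ |(Nat.totient m : ℝ)| := by
      rw [Nat.abs_cast]
      exact_mod_cast h
    rw [div_le_one (by linarith)]
    linarith

/-- the inner sums: infinite against finite -/
theorem inner {c : ℝ → ArithmeticFunction ℝ} {C : ℝ} {T : ℝ} (hT : 3 ≤ T) (hC0 : 0 ≤ C)
    (hC : ∀ n : ℕ, |c T n| ≤ C * (n : ℝ) ^ 7) {j : ℕ} (hj : j ≤ 1) {k : ℕ} (hk : 1 ≤ k) (hkT : (k : ℝ) ≤ T) :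
    ‖(∑' n : ℕ, ((c T n : ℝ) : ℂ) * (H98.SZ.rho k n : ℂ) * H98.SZ.wj j T ((n : ℝ) / (k : ℝ))) -
      ((∑ n ∈ Icc 1 (H82SZ.N0 T * k), c T n * (H82SZ.wt T (n / k) * Real.log (n / k) ^ j) *
      ((ArithmeticFunction.moebius (k / Nat.gcd k n) : ℝ) / (Nat.totient (k / Nat.gcd k n) : ℝ)) : ℝ) : ℂ)‖
      ≤ C * (T ^ 10)⁻¹ * ∑' n : ℕ, ((n : ℝ) ^ 2)⁻¹ := by
  set g : ℕ → ℝ := fun n => c T n * (H82SZ.wt T (n / k) * Real.log (n / k) ^ j) * H98.SZ.rho k n with hg
  have hk0 : (0 : ℝ) < k := by exact_mod_cast hk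
  have e1 : ∀ n : ℕ, ((c T n : ℝ) : ℂ) * (H98.SZ.rho k n : ℂ) * H98.SZ.wj j T ((n : ℝ) / (k : ℝ)) = ((g n : ℝ) : ℂ) := by
    intro n
    rcases Nat.eq_zero_or_pos n with hn | hn
    · subst hn
      simp [hg]
    · have hr : 0 < (n : ℝ) / (k : ℝ) := by
        have : (0 : ℝ) < n := by exact_mod_cast hn
        positivity
      simp only [hg, H98.SZ.wj, hr, if_true, win_eq hT]
      push_cast
      ring
  simp_rw [e1]
  set s := Icc 1 (H82SZ.N0 T * k) with hs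
  have e2 : (∑ n ∈ s, c T n * (H82SZ.wt T (n / k) * Real.log (n / k) ^ j) *
      ((ArithmeticFunction.moebius (k / Nat.gcd k n) : ℝ) / (Nat.totient (k / Nat.gcd k n) : ℝ))) = ∑ n ∈ s, g n := rfl
  rw [e2]
  -- the tail
  set f : ℕ → ℝ := fun n => if n ∈ s then 0 else g n with hf
  have hS : Summable fun n : ℕ => ((n : ℝ) ^ 2)⁻¹ := Real.summable_nat_pow_inv.2 (by norm_num)
  have hb : ∀ n : ℕ, ‖f n‖ ≤ C * (T ^ 10)⁻¹ * ((n : ℝ) ^ 2)⁻¹ := by
    intro n
    simp only [hf]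
    split_ifs with hn
    · rw [norm_zero]; positivity
    · rcases Nat.eq_zero_or_pos n with h0 | h0
      · subst h0
        simp [hg]
      · have hn2 : H82SZ.N0 T * k < n := by
          by_contra hlt
          exact hn (Finset.mem_Icc.2 ⟨h0, not_lt.1 hlt⟩)
        have h1 := tail_pt hT hk hkT hn2 hj
        have hn0 : (0 : ℝ) < n := by exact_mod_cast h0
        rw [Real.norm_eq_abs]
        simp only [hg]
        rw [abs_mul, abs_mul]
        calc |c T n| * |H82SZ.wt T (n / k) * Real.log (n / k) ^ j| * |H98.SZ.rho k n|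
            ≤ (C * (n : ℝ) ^ 7) * (n * ((n : ℝ) ^ 10 * T ^ 10)⁻¹) * 1 := by
              gcongr
              · exact hC n
              · exact rho_le k n
          _ = C * (T ^ 10)⁻¹ * ((n : ℝ) ^ 2)⁻¹ := by
              have : T ≠ 0 := by linarith
              field_simp
  have hfs : Summable f := Summable.of_norm_bounded (hS.mul_left _) hb
  have hgs : Summable (fun n => if n ∈ s then g n else 0) :=
    summable_of_ne_finset_zero (s := s) (fun n hn => by simp [hn])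
  have hg2 : (fun n : ℕ => ((g n : ℝ) : ℂ)) = fun n => (((if n ∈ s then g n else 0) + f n : ℝ) : ℂ) := by
    funext n
    simp only [hf]
    split_ifs <;> simp
  rw [hg2, ← Complex.ofReal_tsum, ← Complex.ofReal_sub, Complex.norm_real, hgs.tsum_add hfs]
  have h3 : ∑' n, (if n ∈ s then g n else 0) = ∑ n ∈ s, g n := by
    rw [tsum_eq_sum (s := s) (fun n hn => by simp [hn])]
    exact Finset.sum_congr rfl fun n hn => by simp [hn]
  rw [h3, add_sub_cancel_left, ← tsum_mul_left]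
  exact tsum_of_norm_bounded (hS.mul_left _).hasSum hb

/-- `PRIN` against `Prj` -/
theorem prin_prj {P : ℝ → ℝ} (h : Rc P) {c : ℝ → ArithmeticFunction ℝ} (hc : PB c 7) {j : ℕ} (hj : j ≤ 1) :
    ∃ D : ℝ, ∀ T, 3 ≤ T →
      ‖H98.SZ.PRIN (H98.SZ.xx (cx P) (Real.log T)) (fun n => ((c T n : ℝ) : ℂ)) (H98.SZ.wj j T) -
        (H82SZ.Prj P T j (c T) : ℂ)‖ ≤ D * (T / Real.log T) := by
  obtain ⟨M, hM0, hM⟩ := bdd_of h.cont h.cs
  obtain ⟨C, hC0, hC⟩ := hc
  set S := ∑' n : ℕ, ((n : ℝ) ^ 2)⁻¹ with hS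
  have hS0 : 0 ≤ S := tsum_nonneg fun n => by positivity
  refine ⟨M * (C * S), fun T hT => ?_⟩
  have hL := log_ge hT
  have hT0 : 0 < T := by linarith
  set L := Real.log T with hLdef
  have hx : ∀ k : ℕ, k ∉ Icc 1 (H82SZ.NT T) → H98.SZ.xx (cx P) L k = 0 := by
    intro k hk
    unfold H98.SZ.xx cx
    rcases Nat.eq_zero_or_pos k with h0 | h0
    · subst h0; simp
    · have h1 : H82SZ.NT T < k := by
        by_contra hlt
        exact hk (Finset.mem_Icc.2 ⟨h0, not_lt.1 hlt⟩)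
      have h2 : T < k := Nat.lt_of_floor_lt h1
      have h3 : 1 ≤ Real.log k / L := by
        rw [le_div_iff₀ (by linarith), one_mul]
        exact Real.log_le_log hT0 h2.le
      rw [h.z _ h3]
      simp
  have e1 : H98.SZ.PRIN (H98.SZ.xx (cx P) L) (fun n => ((c T n : ℝ) : ℂ)) (H98.SZ.wj j T)
      = ∑ k ∈ Icc 1 (H82SZ.NT T), H98.SZ.xx (cx P) L k / (k : ℂ) *
        ∑' n : ℕ, ((c T n : ℝ) : ℂ) * (H98.SZ.rho k n : ℂ) * H98.SZ.wj j T ((n : ℝ) / (k : ℝ)) := by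
    unfold H98.SZ.PRIN
    rw [tsum_eq_sum (s := Icc 1 (H82SZ.NT T))]
    intro k hk
    rw [hx k hk]
    simp
  have e2 : (H82SZ.Prj P T j (c T) : ℂ) = ∑ k ∈ Icc 1 (H82SZ.NT T), H98.SZ.xx (cx P) L k / (k : ℂ) *
      ((∑ n ∈ Icc 1 (H82SZ.N0 T * k), c T n * (H82SZ.wt T (n / k) * Real.log (n / k) ^ j) *
      ((ArithmeticFunction.moebius (k / Nat.gcd k n) : ℝ) / (Nat.totient (k / Nat.gcd k n) : ℝ)) : ℝ) : ℂ) := by
    unfold H82SZ.Prj
    rw [Complex.ofReal_sum]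
    refine Finset.sum_congr rfl fun k _ => ?_
    rw [Complex.ofReal_mul]
    congr 1
    change ((((ArithmeticFunction.moebius k : ℝ) * P (Real.log k / Real.log T)) / (k : ℝ) : ℝ) : ℂ) = _
    unfold H98.SZ.xx cx
    push_cast
    rfl
  rw [e1, e2, ← Finset.sum_sub_distrib]
  have hkb : ∀ k ∈ Icc 1 (H82SZ.NT T), ‖H98.SZ.xx (cx P) L k / (k : ℂ) *
        (∑' n : ℕ, ((c T n : ℝ) : ℂ) * (H98.SZ.rho k n : ℂ) * H98.SZ.wj j T ((n : ℝ) / (k : ℝ))) -
        H98.SZ.xx (cx P) L k / (k : ℂ) *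
      ((∑ n ∈ Icc 1 (H82SZ.N0 T * k), c T n * (H82SZ.wt T (n / k) * Real.log (n / k) ^ j) *
      ((ArithmeticFunction.moebius (k / Nat.gcd k n) : ℝ) / (Nat.totient (k / Nat.gcd k n) : ℝ)) : ℝ) : ℂ)‖
      ≤ M * (C * (T ^ 10)⁻¹ * S) := by
    intro k hk
    obtain ⟨hk1, hk2⟩ := Finset.mem_Icc.1 hk
    have hkT : (k : ℝ) ≤ T := (Nat.cast_le.2 hk2).trans (Nat.floor_le hT0.le)
    rw [← mul_sub, norm_mul]
    have h1 := inner hT hC0 (hC T hT) hj hk1 hkT
    have h2 : ‖H98.SZ.xx (cx P) L k / (k : ℂ)‖ ≤ M := by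
      unfold H98.SZ.xx cx
      rw [norm_div, norm_mul, Complex.norm_real]
      have hmu : ‖((ArithmeticFunction.moebius k : ℤ) : ℂ)‖ ≤ 1 := by
        rw [Complex.norm_intCast]
        exact_mod_cast ArithmeticFunction.abs_moebius_le_one
      have hkn : (1 : ℝ) ≤ ‖(k : ℂ)‖ := by
        rw [Complex.norm_natCast]
        exact_mod_cast hk1
      calc ‖((ArithmeticFunction.moebius k : ℤ) : ℂ)‖ * ‖P (Real.log k / L)‖ / ‖(k : ℂ)‖
          ≤ ‖((ArithmeticFunction.moebius k : ℤ) : ℂ)‖ * ‖P (Real.log k / L)‖ := div_le_self (by positivity) hkn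
        _ ≤ 1 * M := by
            gcongr
            exact hM _
        _ = M := one_mul M
    exact mul_le_mul h2 h1 (norm_nonneg _) hM0
  refine (norm_sum_le_of_le _ hkb).trans ?_
  rw [Finset.sum_const, nsmul_eq_mul, Nat.card_Icc, Nat.add_sub_cancel]
  have h4 : ((H82SZ.NT T : ℕ) : ℝ) ≤ T := Nat.floor_le hT0.le
  have h5 : T * (T ^ 10)⁻¹ ≤ T / L := by
    rw [div_eq_mul_inv]
    gcongr
    have : L ≤ T := by
      have := Real.log_le_sub_one_of_pos hT0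
      linarith
    refine this.trans ?_
    exact le_self_pow₀ (by linarith) (by norm_num)
  calc ((H82SZ.NT T : ℕ) : ℝ) * (M * (C * (T ^ 10)⁻¹ * S)) ≤ T * (M * (C * (T ^ 10)⁻¹ * S)) := by gcongr
    _ = M * (C * S) * (T * (T ^ 10)⁻¹) := by ring
    _ ≤ M * (C * S) * (T / L) := by gcongr

/-- the glue -/
theorem glue {P : ℝ → ℝ} (h : Rc P) {c : ℝ → ArithmeticFunction ℝ} (hc : PB c 7) {j : ℕ} (hj : j ≤ 1) {m : ℕ} {v : ℝ}
    (hlim : Tendsto (fun T : ℝ => H98.SZ.PRIN (H98.SZ.xx (cx P) (Real.log T)) (fun n => ((c T n : ℝ) : ℂ)) (H98.SZ.wj j T)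
      / ((Real.log T : ℂ) ^ m * (H98.SZ.om T : ℂ))) atTop (𝓝 (v : ℂ))) : H82SZ.MLim P j m c v := by
  obtain ⟨D, hD⟩ := prin_prj h hc hj
  have h1 : Tendsto (fun T : ℝ => H98.SZ.PRIN (H98.SZ.xx (cx P) (Real.log T)) (fun n => ((c T n : ℝ) : ℂ)) (H98.SZ.wj j T)
      / ((Real.log T : ℂ) ^ m * (H98.SZ.om T : ℂ)) - (H82SZ.Prj P T j (c T) : ℂ) / ((Real.log T : ℂ) ^ m * (H98.SZ.om T : ℂ)))
      atTop (𝓝 0) := by
    have h2 := (H82SZ.tendsto_err 0).const_mul |D|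
    rw [mul_zero] at h2
    refine squeeze_zero_norm' ?_ h2
    filter_upwards [eventually_ge_atTop 3] with T hT
    have hL := log_ge hT
    have hom : 0 < H82SZ.om T := H82SZ.om_pos (by linarith)
    rw [← sub_div, norm_div, norm_mul, norm_pow, Complex.norm_real, Complex.norm_real, om_eq,
      Real.norm_of_nonneg hom.le, Real.norm_of_nonneg (by linarith : 0 ≤ Real.log T)]
    have h3 := hD T hT
    rw [zero_add, pow_one]
    have hLm : 1 ≤ Real.log T ^ m := one_le_pow₀ hL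
    have hTL : 0 ≤ T / Real.log T := by
      have : 0 ≤ T := by linarith
      positivity
    rw [← mul_div_assoc]
    rw [div_le_div_iff₀ (by positivity) hom]
    calc _ ≤ (D * (T / Real.log T)) * H82SZ.om T := by gcongr
      _ ≤ (|D| * (T / Real.log T)) * H82SZ.om T := by gcongr; exact le_abs_self D
      _ ≤ (|D| * (T / Real.log T)) * (Real.log T ^ m * H82SZ.om T) := by
          gcongr
          nlinarith
  have h4 := hlim.sub h1
  simp only [sub_sub_cancel, sub_zero] at h4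
  have h5 := (Complex.continuous_re.tendsto _).comp h4
  unfold H82SZ.MLim
  refine h5.congr fun T => ?_
  simp only [Function.comp]
  rw [om_eq]
  have : (H82SZ.Prj P T j (c T) : ℂ) / ((Real.log T : ℂ) ^ m * (H82SZ.om T : ℂ))
      = ((H82SZ.Prj P T j (c T) / (H82SZ.om T * Real.log T ^ m) : ℝ) : ℂ) := by
    push_cast
    rw [mul_comm (H82SZ.om T : ℂ)]
  rw [this, Complex.ofReal_re]

end H11.SZ
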