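import Pool.Agent.H11.SZ.Ab

/-!
# Integrability and value together; elementary terms of the averages
-/

open MeasureTheory Real Set Complex
open scoped ContDiff

namespace H11.SZ

/-- integrable with integral `v` -/
def HI {X : Type*} [MeasureSpace X] (F : X → ℂ) (v : ℂ) : Prop := Integrable F ∧ ∫ x, F x = v

section
variable {X : Type*} [MeasureSpace X] {F G : X → ℂ} {v w : ℂ}

theorem HI.add (h : HI F v) (k : HI G w) : HI (fun x => F x + G x) (v + w) :=
  ⟨h.1.add k.1, by rw [integral_add h.1 k.1, h.2, k.2]⟩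

theorem HI.sub (h : HI F v) (k : HI G w) : HI (fun x => F x - G x) (v - w) :=
  ⟨h.1.sub k.1, by rw [integral_sub h.1 k.1, h.2, k.2]⟩

theorem HI.mul (h : HI F v) (c : ℂ) : HI (fun x => c * F x) (c * v) :=
  ⟨h.1.const_mul c, by rw [integral_const_mul, h.2]⟩

theorem HI.congr (h : HI F v) (e : ∀ x, F x = G x) (e2 : v = w) : HI G w := by
  have : F = G := funext e
  rw [← this, ← e2]; exact h

end

theorem HI.prod {a b : ℝ → ℂ} {v w : ℂ} (h : HI a v) (k : HI b w) : HI (fun p : ℝ × ℝ => a p.1 * b p.2) (v * w) := by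
  refine ⟨h.1.mul_prod k.1, ?_⟩
  rw [← h.2, ← k.2]
  exact integral_prod_mul a b

theorem HI.dbl {a b : ℝ → ℂ} {v : ℂ} (ha : Integrable a) (hb : Integrable b) (h : DD a b = v) :
    HI (fun p : ℝ × ℝ => a p.1 * b p.2 / (tau p.1 + tau p.2)) v := ⟨(H11.SZ.dbl ha hb).1, h⟩

section

variable {P : ℝ → ℝ} (h : Rc P)
include h

theorem h0 : HI (pc (cx P)) (P 0 : ℂ) := ⟨i_p h, s0 h⟩

theorem h1 : HI (fun ξ => pc (cx P) ξ / tau ξ) ((∫ v in (0:ℝ)..1, P v : ℝ) : ℂ) := by
  have := s_pow h 0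
  simp only [zero_add, pow_one, Nat.factorial_zero, Nat.cast_one, inv_one, one_mul, pow_zero] at this
  exact this

theorem h2 : HI (fun ξ => pc (cx P) ξ / tau ξ ^ 2) ((∫ v in (0:ℝ)..1, v * P v : ℝ) : ℂ) := by
  have := s_pow h 1
  simp only [pow_one, Nat.factorial_one, Nat.cast_one, inv_one, one_mul, Nat.reduceAdd] at this
  exact this

theorem h3 : HI (fun ξ => pc (cx P) ξ / tau ξ ^ 3) (((1 / 2) * ∫ v in (0:ℝ)..1, v ^ 2 * P v : ℝ) : ℂ) := by
  have := s_pow h 2
  simp only [Nat.factorial_two, Nat.reduceAdd] at this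
  refine HI.congr this (fun _ => rfl) ?_
  push_cast
  ring

theorem he (m : ℕ) : HI (fun ξ => pc (cx P) ξ * cexp (-tau ξ) / tau ξ ^ (m + 1)) 0 := s_exp h m

theorem PdP : ∫ s in (0:ℝ)..1, deriv P s * P s = -(P 0 ^ 2 / 2) := by
  have h1 : ∀ x ∈ uIcc (0:ℝ) 1, HasDerivAt (fun s => P s ^ 2 / 2) (deriv P x * P x) x := by
    intro x _
    have := ((h.hd x).mul (h.hd x)).div_const 2
    refine (this.congr_deriv (by ring)).congr_of_eventuallyEq (Filter.Eventually.of_forall fun s => ?_)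
    simp only [Pi.mul_apply]
    ring
  rw [intervalIntegral.integral_eq_sub_of_hasDerivAt h1 ((h.dcont.mul h.cont).intervalIntegrable _ _), h.z 1 le_rfl]
  ring

theorem PPi : ∫ s in (0:ℝ)..1, (∫ v in s..1, P v) * P s = (∫ v in (0:ℝ)..1, P v) ^ 2 / 2 := by
  have h1 : ∀ x ∈ uIcc (0:ℝ) 1, HasDerivAt (fun s => -((∫ v in s..1, P v) ^ 2 / 2)) ((∫ v in x..1, P v) * P x) x := by
    intro x _
    have h2 : HasDerivAt (fun s => ∫ v in s..1, P v) (-P x) x :=
      intervalIntegral.integral_hasDerivAt_left (h.cont.intervalIntegrable _ _)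
        (h.cont.stronglyMeasurableAtFilter _ _) h.cont.continuousAt
    have := ((h2.mul h2).div_const 2).neg
    refine (this.congr_deriv (by ring)).congr_of_eventuallyEq (Filter.Eventually.of_forall fun s => ?_)
    simp only [Pi.mul_apply, Pi.neg_apply]
    ring
  have hc : Continuous fun s => ∫ v in s..1, P v := by
    have : (fun s => ∫ v in s..1, P v) = fun s => -∫ v in (1:ℝ)..s, P v := by
      funext s; rw [intervalIntegral.integral_symm]
    rw [this]
    exact (intervalIntegral.continuous_primitive (fun a b => h.cont.intervalIntegrable a b) 1).neg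
  rw [intervalIntegral.integral_eq_sub_of_hasDerivAt h1 ((hc.mul h.cont).intervalIntegrable _ _)]
  simp

end

end H11.SZ
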