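import Pool.Agent.H11.SZ.Pc

/-!
# The inner integrals over `t = 1 + iy`
-/

open MeasureTheory Real Set Complex

namespace H11.SZ

/-- `(1/2π) ∫ e^t K(t) dy`, `t = 1 + iy` -/
noncomputable def II (K : ℂ → ℂ) : ℂ := (2 * π : ℂ)⁻¹ * ∫ y : ℝ, cexp (tt y) * K (tt y)

/-- integrability on the line -/
def Li (K : ℂ → ℂ) : Prop := Integrable fun y : ℝ => cexp (tt y) * K (tt y)

theorem norm_exp_tt (y : ℝ) : ‖cexp (tt y)‖ = Real.exp 1 := by
  rw [Complex.norm_exp, tt_re]

theorem Li.of_int {K : ℂ → ℂ} (h : Integrable fun y : ℝ => K (tt y)) : Li K := by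
  unfold Li
  have hc : Continuous fun y : ℝ => cexp (tt y) := by
    have := continuous_tt
    fun_prop
  refine (h.norm.const_mul (Real.exp 1)).mono' (hc.aestronglyMeasurable.mul h.aestronglyMeasurable)
    (ae_of_all _ fun y => ?_)
  rw [norm_mul, norm_exp_tt]

theorem Li.int {K : ℂ → ℂ} (h : Li K) : Integrable fun y : ℝ => K (tt y) := by
  have hc : Continuous fun y : ℝ => cexp (-(tt y)) := by
    have := continuous_tt
    fun_prop
  refine (h.norm.const_mul (Real.exp (-1))).mono' ?_ (ae_of_all _ fun y => ?_)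
  · refine (hc.aestronglyMeasurable.mul h.aestronglyMeasurable).congr (ae_of_all _ fun y => ?_)
    simp only
    rw [Pi.mul_apply, ← mul_assoc, ← Complex.exp_add, neg_add_cancel, Complex.exp_zero, one_mul]
  · rw [norm_mul, norm_exp_tt, ← mul_assoc, ← Real.exp_add]
    simp

theorem Li.add {K H : ℂ → ℂ} (hK : Li K) (hH : Li H) : Li fun t => K t + H t := by
  unfold Li at *
  have := hK.add hH
  refine this.congr (ae_of_all _ fun y => ?_)
  simp only [Pi.add_apply]
  ring

theorem Li.smul {K : ℂ → ℂ} (hK : Li K) (c : ℂ) : Li fun t => c * K t := by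
  unfold Li at *
  have := hK.const_mul c
  refine this.congr (ae_of_all _ fun y => ?_)
  simp only
  ring

theorem II_add {K H : ℂ → ℂ} (hK : Li K) (hH : Li H) : II (fun t => K t + H t) = II K + II H := by
  unfold II
  rw [← mul_add, ← integral_add hK hH]
  congr 2
  funext y
  ring

theorem II_smul (K : ℂ → ℂ) (c : ℂ) : II (fun t => c * K t) = c * II K := by
  unfold II
  have : (fun y : ℝ => cexp (tt y) * (c * K (tt y))) = fun y : ℝ => c * (cexp (tt y) * K (tt y)) := by
    funext y; ring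
  rw [this, integral_const_mul]
  ring

theorem II_congr {K H : ℂ → ℂ} (h : ∀ y : ℝ, K (tt y) = H (tt y)) : II K = II H := by
  unfold II
  congr 2
  funext y
  rw [h y]

theorem Li_congr {K H : ℂ → ℂ} (h : ∀ y : ℝ, K (tt y) = H (tt y)) (hK : Li K) : Li H := by
  unfold Li at *
  refine hK.congr (ae_of_all _ fun y => ?_)
  simp only
  rw [h y]

theorem Li_pow (m : ℕ) : Li fun t => 1 / t ^ (m + 2) := Li.of_int (int_inv_pow (by omega))

theorem II_pow (m : ℕ) : II (fun t => 1 / t ^ (m + 2)) = 1 / (m + 1).factorial := by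
  unfold II
  have h := inv_pow m (s := 1) zero_le_one
  simp only [ofReal_one, mul_one] at h
  rw [h]
  have hp : (π : ℂ) ≠ 0 := by exact_mod_cast Real.pi_ne_zero
  field_simp
  simp

theorem Li_ker {τ : ℂ} (hτ : τ.re = 2) : Li fun t => τ / (t * (τ - t)) := Li.of_int (ker_int hτ)

theorem II_ker {τ : ℂ} (hτ : τ.re = 2) : II (fun t => τ / (t * (τ - t))) = 1 := by
  unfold II
  have h := ker_eval hτ (s := 1) zero_le_one
  simp only [ofReal_one, mul_one] at h
  rw [h]
  have hp : (π : ℂ) ≠ 0 := by exact_mod_cast Real.pi_ne_zero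
  field_simp

theorem tu_ne {u : ℂ} (hu : u.re = 2) (y : ℝ) : tt y + u ≠ 0 := by
  intro h
  have := congrArg Complex.re h
  simp [hu, tt_re] at this
  norm_num at this

theorem norm_tt_ge (y : ℝ) : 1 ≤ ‖tt y‖ := by
  have := Complex.abs_re_le_norm (tt y)
  rwa [tt_re, abs_one] at this

theorem int_tu {u : ℂ} (hu : u.re = 2) : Integrable fun y : ℝ => 1 / (tt y * (tt y + u)) := by
  have h := (integrable_inv_one_add_sq).const_mul (1 + ‖u‖)
  refine h.mono' ?_ (ae_of_all _ fun y => ?_)
  · apply Continuous.aestronglyMeasurable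
    exact continuous_const.div (continuous_tt.mul (continuous_tt.add continuous_const))
      (fun y => mul_ne_zero (tt_ne y) (tu_ne hu y))
  · have h1 : ‖tt y‖ ^ 2 = 1 + y ^ 2 := by
      rw [← Complex.normSq_eq_norm_sq]
      simp [tt, Complex.normSq_apply]
      ring
    have h2 : 1 ≤ ‖tt y + u‖ := by
      have := Complex.abs_re_le_norm (tt y + u)
      rw [add_re, tt_re, hu] at this
      norm_num at this
      linarith
    have h3 : ‖tt y‖ ≤ (1 + ‖u‖) * ‖tt y + u‖ := by
      have : ‖tt y‖ ≤ ‖tt y + u‖ + ‖u‖ := by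
        have := norm_sub_le (tt y + u) u
        simpa using this
      nlinarith [norm_nonneg u]
    rw [norm_div, norm_one, norm_mul, ← h1, div_le_iff₀ (by have := norm_tt_ge y; positivity)]
    have h4 := norm_tt_ge y
    have h5 : (1 + ‖u‖) * (‖tt y‖ ^ 2)⁻¹ * (‖tt y‖ * ‖tt y + u‖) = ((1 + ‖u‖) * ‖tt y + u‖) / ‖tt y‖ := by
      field_simp
    rw [h5, one_le_div (by positivity)]
    exact h3

theorem Li_tu {u : ℂ} (hu : u.re = 2) : Li fun t => 1 / (t * (t + u)) := Li.of_int (int_tu hu)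

theorem II_tu {u : ℂ} (hu : u.re = 2) : II (fun t => 1 / (t * (t + u))) = (1 - cexp (-u)) / u := by
  have hu0 : u ≠ 0 := by
    rintro rfl
    simp at hu
  set k : ℝ → ℂ := fun v => if 0 ≤ v then (1 - cexp (-(u * v))) / u else 0 with hk
  have hcont : Continuous k := by
    have : k = fun v : ℝ => (1 - cexp (-(u * ((max v 0 : ℝ) : ℂ)))) / u := by
      funext v
      simp only [hk]
      split_ifs with h
      · rw [max_eq_left h]
      · rw [max_eq_right (not_le.1 h).le]; simp
    rw [this]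
    fun_prop
  have hind : ∀ t : ℂ, (fun v : ℝ => k v * cexp (-(t * v)))
      = (Ioi (0:ℝ)).indicator (fun v : ℝ => u⁻¹ * (cexp (-(t * v)) - cexp (-((t + u) * v)))) := by
    intro t
    funext v
    by_cases hv : 0 < v
    · rw [indicator_of_mem (show v ∈ Ioi 0 from hv)]
      simp only [hk, hv.le, if_true]
      have : cexp (-((t + u) * v)) = cexp (-(u * v)) * cexp (-(t * v)) := by
        rw [← Complex.exp_add]; congr 1; ring
      rw [this]
      ring
    · rw [indicator_of_notMem (show v ∉ Ioi 0 from hv)]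
      simp only [hk]
      rcases (not_lt.1 hv).lt_or_eq with h | h
      · rw [if_neg (not_le.2 h), zero_mul]
      · subst h; simp
  have hi : ∀ t : ℂ, 0 < t.re → IntegrableOn (fun v : ℝ => cexp (-(t * v))) (Ioi 0) := by
    intro t ht
    have := powexp_int 0 ht
    simpa only [pow_zero, one_mul] using this
  have hi2 : ∀ t : ℂ, 0 < t.re → IntegrableOn (fun v : ℝ => u⁻¹ * (cexp (-(t * v)) - cexp (-((t + u) * v)))) (Ioi 0) := by
    intro t ht
    exact ((hi t ht).sub (hi (t + u) (by rw [add_re, hu]; linarith))).const_mul _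
  have h1 : Integrable (fun v : ℝ => k v * cexp (-(v : ℂ))) := by
    have h2 := hind 1
    simp only [one_mul] at h2
    rw [h2, integrable_indicator_iff measurableSet_Ioi]
    have := hi2 1 (by simp)
    simpa only [one_mul] using this
  have h3 : ∀ y : ℝ, 1 / (tt y * (tt y + u)) = ∫ v : ℝ, k v * cexp (-(tt y * v)) := by
    intro y
    have ht : 0 < (tt y).re := by rw [tt_re]; exact one_pos
    have ht2 : 0 < (tt y + u).re := by rw [add_re, hu]; linarith
    rw [hind (tt y), integral_indicator measurableSet_Ioi, integral_const_mul,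
      integral_sub (hi _ ht) (hi _ ht2), powexp_zero ht, powexp_zero ht2]
    have := tt_ne y
    have := tu_ne hu y
    field_simp
    ring
  have h4 := lap_inv (K := fun y => 1 / (tt y * (tt y + u))) h1 h3 (int_tu hu) hcont.continuousAt (s := 1)
  unfold II
  simp only [ofReal_one, mul_one] at h4
  rw [h4]
  simp only [hk, zero_le_one, if_true, ofReal_one, mul_one]
  have hp : (π : ℂ) ≠ 0 := by exact_mod_cast Real.pi_ne_zero
  field_simp

/-- `1/(t^{m+2} (t+u)) = (1/u) (1/t^{m+2} - 1/(t^{m+1}(t+u)))` -/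
theorem Li_tu_succ {u : ℂ} (hu : u.re = 2) (m : ℕ) : Li (fun t => 1 / (t ^ (m + 1) * (t + u))) ∧
    II (fun t => 1 / (t ^ (m + 2) * (t + u))) = u⁻¹ * (1 / (m + 1).factorial - II (fun t => 1 / (t ^ (m + 1) * (t + u)))) := by
  have hu0 : u ≠ 0 := by
    rintro rfl
    simp at hu
  have key : ∀ m : ℕ, ∀ y : ℝ, u⁻¹ * (1 / tt y ^ (m + 2) + (-1) * (1 / (tt y ^ (m + 1) * (tt y + u))))
      = 1 / (tt y ^ (m + 2) * (tt y + u)) := by
    intro m y
    have := tt_ne y
    have := tu_ne hu y
    field_simp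
    ring
  have hL : ∀ m : ℕ, Li (fun t => 1 / (t ^ (m + 1) * (t + u))) := by
    intro m
    induction m with
    | zero => simpa using Li_tu hu
    | succ m ih => exact Li_congr (key m) (((Li_pow m).add (ih.smul (-1))).smul u⁻¹)
  refine ⟨hL m, ?_⟩
  rw [← II_congr (K := fun t => u⁻¹ * (1 / t ^ (m + 2) + (-1) * (1 / (t ^ (m + 1) * (t + u))))) (key m), II_smul, II_add (Li_pow m) ((hL m).smul (-1)), II_smul, II_pow]
  ring

theorem II_tu1 {u : ℂ} (hu : u.re = 2) : II (fun t => 1 / (t ^ 2 * (t + u))) = 1 / u - (1 - cexp (-u)) / u ^ 2 := by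
  have hu0 : u ≠ 0 := by
    rintro rfl
    simp at hu
  have h := (Li_tu_succ hu 0).2
  simp only [zero_add, pow_one, Nat.factorial_one, Nat.cast_one] at h
  rw [h, II_tu hu]
  field_simp

theorem II_tu2 {u : ℂ} (hu : u.re = 2) : II (fun t => 1 / (t ^ 3 * (t + u)))
    = 1 / (2 * u) - 1 / u ^ 2 + (1 - cexp (-u)) / u ^ 3 := by
  have hu0 : u ≠ 0 := by
    rintro rfl
    simp at hu
  have h := (Li_tu_succ hu 1).2
  norm_num at h
  have h1 : II (fun t => (t + u)⁻¹ * (t ^ 3)⁻¹) = II (fun t => 1 / (t ^ 3 * (t + u))) := by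
    congr 1; funext t; rw [one_div, mul_inv, mul_comm]
  have h2 : II (fun t => (t + u)⁻¹ * (t ^ 2)⁻¹) = II (fun t => 1 / (t ^ 2 * (t + u))) := by
    congr 1; funext t; rw [one_div, mul_inv, mul_comm]
  rw [h1, h2, II_tu1 hu] at h
  rw [h]
  field_simp
  ring

end H11.SZ
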