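import Pool.Agent.H11.SZ.Jt

/-!
# The nine kernels at fixed parameters
`K(t) = (1/(τ - t)) ∏ R_f(t, τ)`; values of `(1/2π) ∫ e^t K(t) dy` in closed form.
-/

open MeasureTheory Real Set Complex

namespace H11.SZ

/-- factor of `1` -/
noncomputable def R1 (τ t : ℂ) : ℂ := τ / t
/-- factor of `log / L` -/
noncomputable def Rl (τ t : ℂ) : ℂ := (τ - t) / t ^ 2
/-- factor of `Λ / L` -/
noncomputable def RL (τ t : ℂ) : ℂ := (τ - t) / (t * τ)
/-- factor of `y` at the parameter `u` -/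
noncomputable def Ry (u τ t : ℂ) : ℂ := 1 / (t + u) - 1 / (τ + u)
/-- factor of `x` at the parameter `τ'` -/
noncomputable def Rx (τ' τ t : ℂ) : ℂ := (t + τ') / (τ + τ')

theorem tau_sub_ne {τ : ℂ} (hτ : τ.re = 2) (y : ℝ) : τ - tt y ≠ 0 := by
  intro h
  have := congrArg Complex.re h
  simp [hτ, tt_re] at this
  norm_num at this

theorem ne_of_re2 {τ : ℂ} (hτ : τ.re = 2) : τ ≠ 0 := by
  rintro rfl
  simp at hτ

theorem add_ne_of_re2 {τ u : ℂ} (hτ : τ.re = 2) (hu : u.re = 2) : τ + u ≠ 0 := by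
  intro h
  have := congrArg Complex.re h
  simp [hτ, hu] at this

/-- the kernel `1` -/
theorem kn_1 {τ : ℂ} (hτ : τ.re = 2) : Li (fun t => R1 τ t / (τ - t)) ∧ II (fun t => R1 τ t / (τ - t)) = 1 := by
  have h : ∀ y : ℝ, τ / (tt y * (τ - tt y)) = R1 τ (tt y) / (τ - tt y) := by
    intro y; unfold R1; rw [div_div]
  exact ⟨Li_congr (K := fun t => τ / (t * (τ - t))) h (Li_ker hτ),
    by rw [← II_congr (K := fun t => τ / (t * (τ - t))) h, II_ker hτ]⟩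

/-- the kernel `log` -/
theorem kn_l {τ : ℂ} (hτ : τ.re = 2) : Li (fun t => Rl τ t / (τ - t)) ∧ II (fun t => Rl τ t / (τ - t)) = 1 := by
  have h : ∀ y : ℝ, 1 / (tt y) ^ (0 + 2) = Rl τ (tt y) / (τ - tt y) := by
    intro y; unfold Rl
    have := tt_ne y
    have := tau_sub_ne hτ y
    field_simp
  refine ⟨Li_congr (K := fun t => 1 / t ^ (0 + 2)) h (Li_pow 0), ?_⟩
  rw [← II_congr (K := fun t => 1 / t ^ (0 + 2)) h, II_pow]
  simp

/-- the kernel `Λ * log` -/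
theorem kn_Ll {τ : ℂ} (hτ : τ.re = 2) : Li (fun t => RL τ t * Rl τ t / (τ - t)) ∧
    II (fun t => RL τ t * Rl τ t / (τ - t)) = 1 / 2 - 1 / τ := by
  have h : ∀ y : ℝ, 1 / (tt y) ^ (1 + 2) + (-1 / τ) * (1 / (tt y) ^ (0 + 2)) = RL τ (tt y) * Rl τ (tt y) / (τ - tt y) := by
    intro y; unfold Rl RL
    have := tt_ne y
    have := tau_sub_ne hτ y
    have := ne_of_re2 hτ
    field_simp
    ring
  refine ⟨Li_congr (K := fun t => 1 / t ^ (1 + 2) + (-1 / τ) * (1 / t ^ (0 + 2))) h ((Li_pow 1).add ((Li_pow 0).smul _)), ?_⟩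
  rw [← II_congr (K := fun t => 1 / t ^ (1 + 2) + (-1 / τ) * (1 / t ^ (0 + 2))) h,
    II_add (Li_pow 1) ((Li_pow 0).smul _), II_smul, II_pow, II_pow]
  simp [Nat.factorial]
  ring

/-- the kernel `1 * y` -/
theorem kn_1y {τ u : ℂ} (hτ : τ.re = 2) (hu : u.re = 2) : Li (fun t => R1 τ t * Ry u τ t / (τ - t)) ∧
    II (fun t => R1 τ t * Ry u τ t / (τ - t)) = (1 - cexp (-u)) * (1 / u - 1 / (τ + u)) := by
  have h1 := add_ne_of_re2 hτ hu
  have h0 := ne_of_re2 hu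
  have h : ∀ y : ℝ, τ / (τ + u) * (1 / (tt y * (tt y + u))) = R1 τ (tt y) * Ry u τ (tt y) / (τ - tt y) := by
    intro y; unfold R1 Ry
    have := tt_ne y
    have := tau_sub_ne hτ y
    have := tu_ne hu y
    field_simp
    ring
  refine ⟨Li_congr (K := fun t => τ / (τ + u) * (1 / (t * (t + u)))) h ((Li_tu hu).smul _), ?_⟩
  rw [← II_congr (K := fun t => τ / (τ + u) * (1 / (t * (t + u)))) h, II_smul, II_tu hu]
  field_simp
  ring

/-- the kernel `log * y` -/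
theorem kn_ly {τ u : ℂ} (hτ : τ.re = 2) (hu : u.re = 2) : Li (fun t => Rl τ t * Ry u τ t / (τ - t)) ∧
    II (fun t => Rl τ t * Ry u τ t / (τ - t)) = 1 / u - 1 / (τ + u) - (1 - cexp (-u)) / u ^ 2 := by
  have h1 := add_ne_of_re2 hτ hu
  have h0 := ne_of_re2 hu
  have h : ∀ y : ℝ, τ / (τ + u) * (1 / ((tt y) ^ (1 + 1) * (tt y + u))) + (-1 / (τ + u)) * (1 / (tt y * (tt y + u)))
      = Rl τ (tt y) * Ry u τ (tt y) / (τ - tt y) := by
    intro y; unfold Rl Ry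
    have := tt_ne y
    have := tau_sub_ne hτ y
    have := tu_ne hu y
    field_simp
    ring
  have hL := ((Li_tu_succ hu 1).1.smul (τ / (τ + u))).add ((Li_tu hu).smul (-1 / (τ + u)))
  refine ⟨Li_congr (K := fun t => τ / (τ + u) * (1 / (t ^ (1 + 1) * (t + u))) + (-1 / (τ + u)) * (1 / (t * (t + u)))) h hL, ?_⟩
  rw [← II_congr (K := fun t => τ / (τ + u) * (1 / (t ^ (1 + 1) * (t + u))) + (-1 / (τ + u)) * (1 / (t * (t + u)))) h,
    II_add ((Li_tu_succ hu 1).1.smul _) ((Li_tu hu).smul _), II_smul, II_smul, II_tu hu]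
  have h2 := II_tu1 hu
  norm_num at h2 ⊢
  rw [h2]
  field_simp
  ring

/-- the kernel `Λ * log * y` -/
theorem kn_Lly {τ u : ℂ} (hτ : τ.re = 2) (hu : u.re = 2) : Li (fun t => RL τ t * Rl τ t * Ry u τ t / (τ - t)) ∧
    II (fun t => RL τ t * Rl τ t * Ry u τ t / (τ - t)) = (1 / 2) * (1 / u - 1 / (τ + u)) - 1 / u ^ 2 - 1 / (u * (τ + u))
      + (1 - cexp (-u)) * (1 / u ^ 3 + 1 / (u ^ 2 * τ)) := by
  have h1 := add_ne_of_re2 hτ hu
  have h0 := ne_of_re2 hu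
  have hτ0 := ne_of_re2 hτ
  have h : ∀ y : ℝ, (τ / (τ + u) * (1 / ((tt y) ^ (2 + 1) * (tt y + u))) + (-2 / (τ + u)) * (1 / ((tt y) ^ (1 + 1) * (tt y + u))))
      + (1 / (τ * (τ + u))) * (1 / (tt y * (tt y + u)))
      = RL τ (tt y) * Rl τ (tt y) * Ry u τ (tt y) / (τ - tt y) := by
    intro y; unfold RL Rl Ry
    have := tt_ne y
    have := tau_sub_ne hτ y
    have := tu_ne hu y
    field_simp
    ring
  have hA := ((Li_tu_succ hu 2).1.smul (τ / (τ + u))).add ((Li_tu_succ hu 1).1.smul (-2 / (τ + u)))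
  have hL := hA.add ((Li_tu hu).smul (1 / (τ * (τ + u))))
  refine ⟨Li_congr (K := fun t => (τ / (τ + u) * (1 / (t ^ (2 + 1) * (t + u))) + (-2 / (τ + u)) * (1 / (t ^ (1 + 1) * (t + u))))
      + (1 / (τ * (τ + u))) * (1 / (t * (t + u)))) h hL, ?_⟩
  rw [← II_congr (K := fun t => (τ / (τ + u) * (1 / (t ^ (2 + 1) * (t + u))) + (-2 / (τ + u)) * (1 / (t ^ (1 + 1) * (t + u))))
      + (1 / (τ * (τ + u))) * (1 / (t * (t + u)))) h,
    II_add hA ((Li_tu hu).smul _), II_add ((Li_tu_succ hu 2).1.smul _) ((Li_tu_succ hu 1).1.smul _), II_smul, II_smul, II_smul, II_tu hu]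
  have h2 := II_tu1 hu
  have h3 := II_tu2 hu
  norm_num at h2 h3 ⊢
  rw [h2, h3]
  field_simp
  ring

/-- the kernel `1 * log * x` -/
theorem kn_1lx {τ τ' : ℂ} (hτ : τ.re = 2) (hτ' : τ'.re = 2) : Li (fun t => R1 τ t * Rl τ t * Rx τ' τ t / (τ - t)) ∧
    II (fun t => R1 τ t * Rl τ t * Rx τ' τ t / (τ - t)) = τ / (τ + τ') + τ * τ' / (2 * (τ + τ')) := by
  have h1 := add_ne_of_re2 hτ hτ'
  have h : ∀ y : ℝ, τ / (τ + τ') * (1 / (tt y) ^ (0 + 2)) + τ * τ' / (τ + τ') * (1 / (tt y) ^ (1 + 2))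
      = R1 τ (tt y) * Rl τ (tt y) * Rx τ' τ (tt y) / (τ - tt y) := by
    intro y; unfold R1 Rl Rx
    have := tt_ne y
    have := tau_sub_ne hτ y
    field_simp
    ring
  refine ⟨Li_congr (K := fun t => τ / (τ + τ') * (1 / t ^ (0 + 2)) + τ * τ' / (τ + τ') * (1 / t ^ (1 + 2))) h
    (((Li_pow 0).smul _).add ((Li_pow 1).smul _)), ?_⟩
  rw [← II_congr (K := fun t => τ / (τ + τ') * (1 / t ^ (0 + 2)) + τ * τ' / (τ + τ') * (1 / t ^ (1 + 2))) h,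
    II_add ((Li_pow 0).smul _) ((Li_pow 1).smul _), II_smul, II_smul, II_pow, II_pow]
  simp [Nat.factorial]
  field_simp

/-- the kernel `log * log * x` -/
theorem kn_llx {τ τ' : ℂ} (hτ : τ.re = 2) (hτ' : τ'.re = 2) : Li (fun t => Rl τ t * Rl τ t * Rx τ' τ t / (τ - t)) ∧
    II (fun t => Rl τ t * Rl τ t * Rx τ' τ t / (τ - t))
      = τ * τ' / (6 * (τ + τ')) + (τ / (2 * (τ + τ')) - τ' / (2 * (τ + τ'))) - 1 / (τ + τ') := by
  have h1 := add_ne_of_re2 hτ hτ'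
  have h : ∀ y : ℝ, (τ * τ' / (τ + τ') * (1 / (tt y) ^ (2 + 2)) + (τ - τ') / (τ + τ') * (1 / (tt y) ^ (1 + 2)))
        + (-1 / (τ + τ')) * (1 / (tt y) ^ (0 + 2))
      = Rl τ (tt y) * Rl τ (tt y) * Rx τ' τ (tt y) / (τ - tt y) := by
    intro y; unfold Rl Rx
    have := tt_ne y
    have := tau_sub_ne hτ y
    field_simp
    ring
  have hA := ((Li_pow 2).smul (τ * τ' / (τ + τ'))).add ((Li_pow 1).smul ((τ - τ') / (τ + τ')))
  refine ⟨Li_congr (K := fun t => (τ * τ' / (τ + τ') * (1 / t ^ (2 + 2)) + (τ - τ') / (τ + τ') * (1 / t ^ (1 + 2)))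
        + (-1 / (τ + τ')) * (1 / t ^ (0 + 2))) h (hA.add ((Li_pow 0).smul _)), ?_⟩
  rw [← II_congr (K := fun t => (τ * τ' / (τ + τ') * (1 / t ^ (2 + 2)) + (τ - τ') / (τ + τ') * (1 / t ^ (1 + 2)))
        + (-1 / (τ + τ')) * (1 / t ^ (0 + 2))) h,
    II_add hA ((Li_pow 0).smul _), II_add ((Li_pow 2).smul _) ((Li_pow 1).smul _), II_smul, II_smul, II_smul, II_pow, II_pow, II_pow]
  simp [Nat.factorial]
  field_simp
  ring

/-- the kernel `Λ * log * log * x` -/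
theorem kn_Lllx {τ τ' : ℂ} (hτ : τ.re = 2) (hτ' : τ'.re = 2) : Li (fun t => RL τ t * Rl τ t * Rl τ t * Rx τ' τ t / (τ - t)) ∧
    II (fun t => RL τ t * Rl τ t * Rl τ t * Rx τ' τ t / (τ - t))
      = τ * τ' / (24 * (τ + τ')) + (τ / (6 * (τ + τ')) - τ' / (3 * (τ + τ')))
        + (1 / (2 * τ) - 3 / (2 * (τ + τ'))) + 1 / (τ * (τ + τ')) := by
  have h1 := add_ne_of_re2 hτ hτ'
  have hτ0 := ne_of_re2 hτ
  have h : ∀ y : ℝ, ((τ * τ' / (τ + τ') * (1 / (tt y) ^ (3 + 2)) + (τ - 2 * τ') / (τ + τ') * (1 / (tt y) ^ (2 + 2)))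
        + (τ' - 2 * τ) / (τ * (τ + τ')) * (1 / (tt y) ^ (1 + 2))) + 1 / (τ * (τ + τ')) * (1 / (tt y) ^ (0 + 2))
      = RL τ (tt y) * Rl τ (tt y) * Rl τ (tt y) * Rx τ' τ (tt y) / (τ - tt y) := by
    intro y; unfold RL Rl Rx
    have := tt_ne y
    have := tau_sub_ne hτ y
    field_simp
    ring
  have hA := ((Li_pow 3).smul (τ * τ' / (τ + τ'))).add ((Li_pow 2).smul ((τ - 2 * τ') / (τ + τ')))
  have hB := hA.add ((Li_pow 1).smul ((τ' - 2 * τ) / (τ * (τ + τ'))))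
  refine ⟨Li_congr (K := fun t => ((τ * τ' / (τ + τ') * (1 / t ^ (3 + 2)) + (τ - 2 * τ') / (τ + τ') * (1 / t ^ (2 + 2)))
        + (τ' - 2 * τ) / (τ * (τ + τ')) * (1 / t ^ (1 + 2))) + 1 / (τ * (τ + τ')) * (1 / t ^ (0 + 2))) h (hB.add ((Li_pow 0).smul _)), ?_⟩
  rw [← II_congr (K := fun t => ((τ * τ' / (τ + τ') * (1 / t ^ (3 + 2)) + (τ - 2 * τ') / (τ + τ') * (1 / t ^ (2 + 2)))
        + (τ' - 2 * τ) / (τ * (τ + τ')) * (1 / t ^ (1 + 2))) + 1 / (τ * (τ + τ')) * (1 / t ^ (0 + 2))) h,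
    II_add hB ((Li_pow 0).smul _), II_add hA ((Li_pow 1).smul _), II_add ((Li_pow 3).smul _) ((Li_pow 2).smul _),
    II_smul, II_smul, II_smul, II_smul, II_pow, II_pow, II_pow, II_pow]
  simp [Nat.factorial]
  field_simp
  ring

end H11.SZ
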