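import Mathlib

/-!
# Laplace inversion on the line `Re t = 1`
-/

open MeasureTheory Real Set Complex
open scoped FourierTransform

namespace H11.SZ

/-- the point `1 + i y` -/
noncomputable def tt (y : ℝ) : ℂ := 1 + y * I

theorem tt_re (y : ℝ) : (tt y).re = 1 := by simp [tt]

theorem tt_ne (y : ℝ) : tt y ≠ 0 := by
  intro h
  have := tt_re y
  rw [h] at this
  simp at this

theorem continuous_tt : Continuous tt := by
  unfold tt; fun_prop

/-- Laplace inversion: if `K(1 + i y) = ∫ k(v) e^{-(1+iy)v} dv` is integrable in `y` then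
`∫ e^{(1+iy)s} K(1+iy) dy = 2 π k(s)` at every point of continuity of `k` -/
theorem lap_inv {k : ℝ → ℂ} {K : ℝ → ℂ} {s : ℝ}
    (hk : Integrable (fun v : ℝ => k v * cexp (-(v : ℂ))))
    (hK : ∀ y : ℝ, K y = ∫ v : ℝ, k v * cexp (-(tt y * v)))
    (hKi : Integrable K) (hc : ContinuousAt k s) :
    ∫ y : ℝ, cexp (tt y * s) * K y = 2 * π * k s := by
  set f : ℝ → ℂ := fun v => k v * cexp (-(v : ℂ)) with hf
  have hFf : ∀ w : ℝ, 𝓕 f w = K (2 * π * w) := by
    intro w
    rw [Real.fourier_eq', hK]
    congr 1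
    funext v
    simp only [hf, smul_eq_mul, tt]
    rw [mul_comm (k v), ← mul_assoc, ← Complex.exp_add, mul_comm]
    congr 2
    simp only [RCLike.inner_apply, conj_trivial]
    push_cast
    ring
  have h2 : Integrable (𝓕 f) := by
    have : (𝓕 f) = fun w : ℝ => K (2 * π * w) := funext hFf
    rw [this]
    exact hKi.comp_mul_left' (by positivity)
  have hcf : ContinuousAt f s := by
    simp only [hf]
    exact hc.mul (by fun_prop)
  have h3 := hk.fourierInv_fourier_eq h2 hcf
  rw [Real.fourierInv_eq'] at h3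
  have h4 : ∫ y : ℝ, cexp (tt y * s) * K y
      = (2 * π : ℝ) • ∫ w : ℝ, cexp (tt (2 * π * w) * s) * K (2 * π * w) := by
    have := MeasureTheory.Measure.integral_comp_mul_left (fun y : ℝ => cexp (tt y * s) * K y) (2 * π)
    rw [this, smul_smul, abs_of_pos (by positivity), mul_inv_cancel₀ (by positivity), one_smul]
  rw [h4]
  have h5 : (∫ w : ℝ, cexp (tt (2 * π * w) * s) * K (2 * π * w))
      = cexp s * ∫ w : ℝ, cexp (↑(2 * π * inner ℝ w s) * I) • 𝓕 f w := by
    rw [← MeasureTheory.integral_const_mul]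
    congr 1
    funext w
    rw [hFf, smul_eq_mul, ← mul_assoc, ← Complex.exp_add]
    congr 2
    simp only [tt, RCLike.inner_apply, conj_trivial]
    push_cast
    ring
  rw [h5, h3]
  simp only [hf, Complex.real_smul]
  have : cexp (s : ℂ) * cexp (-(s : ℂ)) = 1 := by
    rw [← Complex.exp_add]; simp
  push_cast
  linear_combination (2 * π * k s) * this

end H11.SZ
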