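import Pool.Agent.H11.SZ.Gl

/-!
# The twelve limits of block M
-/

open Finset Filter Topology
open scoped ArithmeticFunction.vonMangoldt ArithmeticFunction.Moebius ArithmeticFunction.zeta

namespace H11.SZ

theorem PRIN_mul (x c : ℕ → ℂ) (W : ℝ → ℂ) (a b : ℂ) :
    H98.SZ.PRIN x (fun n => a * c n) (fun r => b * W r) = a * b * H98.SZ.PRIN x c W := by
  unfold H98.SZ.PRIN
  rw [← tsum_mul_left]
  congr 1
  funext k
  have e : (∑' n : ℕ, (a * c n) * (H98.SZ.rho k n : ℂ) * (b * W ((n : ℝ) / (k : ℝ))))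
      = a * b * ∑' n : ℕ, c n * (H98.SZ.rho k n : ℂ) * W ((n : ℝ) / (k : ℝ)) := by
    rw [← tsum_mul_left]
    congr 1
    funext n
    ring
  rw [e]
  ring

theorem mlim_of {P : ℝ → ℝ} (h : Rc P) {A B C : ℝ → ArithmeticFunction ℂ} {RA RB RC : ℂ → ℂ → ℂ}
    (hA : H98.SZ.Sl1 A RA) (hB : H98.SZ.Sl2 B RB) (hC : H98.SZ.Sl2 C RC) {j : ℕ} (hj : j ≤ 1) {i m : ℕ} (hm : m = i + j)
    {c : ℝ → ArithmeticFunction ℝ} (hc : PB c 7) {v : ℝ}
    (hv : H98.SZ.NL (pc (cx P)) (fun t τ => RA t τ * RB t τ * RC t τ) = (v : ℂ))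
    (hcc : ∀ T, 3 ≤ T → ∀ n : ℕ, ((c T n : ℝ) : ℂ) =
      (Real.log T : ℂ) ^ i * (A (Real.log T) * B (Real.log T) * C (Real.log T)) n) :
    H82SZ.MLim P j m c v := by
  refine glue h hc hj ?_
  have h1 := H98.SZ.NFg hA hB hC j (fl h.nc)
  rw [hv] at h1
  refine h1.congr' ?_
  filter_upwards [eventually_ge_atTop 3] with T hT
  have hL := log_ge hT
  have hL0 : (Real.log T : ℂ) ≠ 0 := by
    have : Real.log T ≠ 0 := by linarith
    exact_mod_cast this
  have e1 : (fun n => ((c T n : ℝ) : ℂ)) = fun n : ℕ => (Real.log T : ℂ) ^ i *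
      (fun n : ℕ => (A (Real.log T) * B (Real.log T) * C (Real.log T)) n) n := by
    funext n; exact hcc T hT n
  have e2 : H98.SZ.wj j T = fun r => (Real.log T : ℂ) ^ j * (fun r => H98.SZ.wj j T r / (Real.log T : ℂ) ^ j) r := by
    funext r
    simp only
    field_simp
  rw [e1, e2, PRIN_mul, hm, pow_add]
  simp only
  field_simp

/-- complex version of a real arithmetic function -/
noncomputable def cf (f : ArithmeticFunction ℝ) : ArithmeticFunction ℂ := ⟨fun n => ((f n : ℝ) : ℂ), by simp⟩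

theorem cf_apply (f : ArithmeticFunction ℝ) (n : ℕ) : cf f n = ((f n : ℝ) : ℂ) := rfl

theorem cf_mul (f g : ArithmeticFunction ℝ) : cf (f * g) = cf f * cf g := by
  ext n
  rw [cf_apply, ArithmeticFunction.mul_apply, ArithmeticFunction.mul_apply, Complex.ofReal_sum]
  refine Finset.sum_congr rfl fun x _ => ?_
  rw [Complex.ofReal_mul]
  rfl

theorem cf_zeta : cf (ζ : ArithmeticFunction ℝ) = H98.SZ.oF := by
  ext n
  rw [cf_apply]
  unfold H98.SZ.oF H98.SZ.pw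
  simp only [ArithmeticFunction.coe_mk, neg_zero, Complex.cpow_zero]
  rcases Nat.eq_zero_or_pos n with hn | hn
  · subst hn; simp
  · rw [ArithmeticFunction.natCoe_apply, ArithmeticFunction.zeta_apply_ne hn.ne', if_neg hn.ne']
    simp

theorem cf_log {L : ℝ} (hL : L ≠ 0) : cf ArithmeticFunction.log = (L : ℂ) • H98.SZ.lgF L := by
  ext n
  change ((Real.log n : ℝ) : ℂ) = (L : ℂ) * ((Real.log n / L : ℝ) : ℂ)
  rw [← Complex.ofReal_mul]
  congr 1
  field_simp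

theorem cf_lam {L : ℝ} (hL : L ≠ 0) : cf Λ = (L : ℂ) • H98.SZ.LaF L := by
  ext n
  change ((Λ n : ℝ) : ℂ) = (L : ℂ) * ((Λ n / L : ℝ) : ℂ)
  rw [← Complex.ofReal_mul]
  congr 1
  field_simp

theorem cf_y (α : ℝ → ℝ) (T : ℝ) : cf (H82SZ.yk α T) = H98.SZ.yF (cx α) (Real.log T) := by
  ext n
  change ((Λ n * α (Real.log n / Real.log T) / Real.log T : ℝ) : ℂ) =
    ((Λ n / Real.log T : ℝ) : ℂ) * ((α (Real.log n / Real.log T) : ℝ) : ℂ)
  rw [← Complex.ofReal_mul]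
  congr 1
  ring

theorem cf_x (P : ℝ → ℝ) (T : ℝ) : cf (H82SZ.xk P T) = H98.SZ.xF (cx P) (Real.log T) := by
  ext n
  change (((ArithmeticFunction.moebius n : ℝ) * P (Real.log n / Real.log T) : ℝ) : ℂ) =
    (ArithmeticFunction.moebius n : ℂ) * ((P (Real.log n / Real.log T) : ℝ) : ℂ)
  push_cast
  rfl

theorem fin_step {f : ArithmeticFunction ℝ} {g : ArithmeticFunction ℂ} {a : ℂ} (h : cf f = a • g) (n : ℕ) :
    ((f n : ℝ) : ℂ) = a * g n := by
  rw [← cf_apply, h]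
  rfl

section

variable {P α : ℝ → ℝ} (h : Rc P) (k : Rc α)
include h

theorem L_1 {j : ℕ} (hj : j ≤ 1) : H82SZ.MLim P j (0 + j) (fun _ => (ζ : ArithmeticFunction ℝ)) (v1 P) := by
  refine mlim_of h H98.SZ.sl_one H98.SZ.sl_triv H98.SZ.sl_triv hj (i := 0) rfl (PB_zeta.mono (by norm_num)) (NL_1 h)
    (fun T hT n => ?_)
  rw [pow_zero]
  refine fin_step ?_ n
  rw [cf_zeta]
  simp

theorem L_l {j : ℕ} (hj : j ≤ 1) : H82SZ.MLim P j (1 + j) (fun _ => ArithmeticFunction.log) (v1 P) := by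
  refine mlim_of h H98.SZ.sl_log H98.SZ.sl_triv H98.SZ.sl_triv hj (i := 1) rfl (PB_log.mono (by norm_num)) (NL_l h)
    (fun T hT n => ?_)
  have hL : Real.log T ≠ 0 := by have := log_ge hT; linarith
  refine fin_step ?_ n
  rw [cf_log hL]
  simp

theorem L_Ll {j : ℕ} (hj : j ≤ 1) : H82SZ.MLim P j (2 + j) (fun _ => Λ * ArithmeticFunction.log) (vLl P) := by
  refine mlim_of h H98.SZ.sl_log H98.SZ.sl_Lam H98.SZ.sl_triv hj (i := 2) rfl ((PB_lam.mul PB_log).mono (by norm_num))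
    (NL_Ll h) (fun T hT n => ?_)
  have hL : Real.log T ≠ 0 := by have := log_ge hT; linarith
  refine fin_step ?_ n
  rw [cf_mul, cf_log hL, cf_lam hL, smul_mul_smul_comm, ← pow_two, mul_one, mul_comm (H98.SZ.LaF _)]

theorem L_1lx {j : ℕ} (hj : j ≤ 1) : H82SZ.MLim P j (1 + j)
    (fun T => (ζ : ArithmeticFunction ℝ) * ArithmeticFunction.log * H82SZ.xk P T) (v1lx P) := by
  refine mlim_of h H98.SZ.sl_one H98.SZ.sl_triv (H98.SZ.sl_lx (fl h.nc)) hj (i := 1) rfl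
    (((PB_zeta.mul PB_log).mul (PB_x h.cont h.cs)).mono (by norm_num)) (NL_1lx h) (fun T hT n => ?_)
  have hL : Real.log T ≠ 0 := by have := log_ge hT; linarith
  refine fin_step ?_ n
  rw [cf_mul, cf_mul, cf_zeta, cf_log hL, cf_x, pow_one, mul_one, mul_smul_comm, smul_mul_assoc, mul_assoc]

theorem L_llx {j : ℕ} (hj : j ≤ 1) : H82SZ.MLim P j (2 + j)
    (fun T => ArithmeticFunction.log * ArithmeticFunction.log * H82SZ.xk P T) (vllx P) := by
  refine mlim_of h H98.SZ.sl_log H98.SZ.sl_triv (H98.SZ.sl_lx (fl h.nc)) hj (i := 2) rfl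
    (((PB_log.mul PB_log).mul (PB_x h.cont h.cs)).mono (by norm_num)) (NL_llx h) (fun T hT n => ?_)
  have hL : Real.log T ≠ 0 := by have := log_ge hT; linarith
  refine fin_step ?_ n
  rw [cf_mul, cf_mul, cf_log hL, cf_x, smul_mul_smul_comm, ← pow_two, mul_one, smul_mul_assoc, mul_assoc]

theorem L_Lllx {j : ℕ} (hj : j ≤ 1) : H82SZ.MLim P j (3 + j)
    (fun T => Λ * ArithmeticFunction.log * ArithmeticFunction.log * H82SZ.xk P T) (vLllx P) := by
  refine mlim_of h H98.SZ.sl_log H98.SZ.sl_Lam (H98.SZ.sl_lx (fl h.nc)) hj (i := 3) rfl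
    ((((PB_lam.mul PB_log).mul PB_log).mul (PB_x h.cont h.cs)).mono (by norm_num)) (NL_Lllx h) (fun T hT n => ?_)
  have hL : Real.log T ≠ 0 := by have := log_ge hT; linarith
  refine fin_step ?_ n
  rw [cf_mul, cf_mul, cf_mul, cf_log hL, cf_lam hL, cf_x, smul_mul_smul_comm, smul_mul_smul_comm, smul_mul_assoc,
    mul_comm (H98.SZ.LaF _), mul_assoc (H98.SZ.lgF _ * H98.SZ.LaF _)]
  congr 1
  ring

include k

theorem L_1y {j : ℕ} (hj : j ≤ 1) : H82SZ.MLim P j (0 + j)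
    (fun T => (ζ : ArithmeticFunction ℝ) * H82SZ.yk α T) (v1y P α) := by
  refine mlim_of h H98.SZ.sl_one H98.SZ.sl_triv (H98.SZ.sl_y (fl k.nc)) hj (i := 0) rfl
    ((PB_zeta.mul (PB_y k.cont k.cs)).mono (by norm_num)) (NL_1y h k) (fun T hT n => ?_)
  rw [pow_zero]
  refine fin_step ?_ n
  rw [cf_mul, cf_zeta, cf_y, mul_one, one_smul]

theorem L_ly {j : ℕ} (hj : j ≤ 1) : H82SZ.MLim P j (1 + j)
    (fun T => ArithmeticFunction.log * H82SZ.yk α T) (vly P α) := by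
  refine mlim_of h H98.SZ.sl_log H98.SZ.sl_triv (H98.SZ.sl_y (fl k.nc)) hj (i := 1) rfl
    ((PB_log.mul (PB_y k.cont k.cs)).mono (by norm_num)) (NL_ly h k) (fun T hT n => ?_)
  have hL : Real.log T ≠ 0 := by have := log_ge hT; linarith
  refine fin_step ?_ n
  rw [cf_mul, cf_log hL, cf_y, mul_one, pow_one, smul_mul_assoc]

theorem L_Lly {j : ℕ} (hj : j ≤ 1) : H82SZ.MLim P j (2 + j)
    (fun T => Λ * ArithmeticFunction.log * H82SZ.yk α T) (vLly P α) := by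
  refine mlim_of h H98.SZ.sl_log H98.SZ.sl_Lam (H98.SZ.sl_y (fl k.nc)) hj (i := 2) rfl
    (((PB_lam.mul PB_log).mul (PB_y k.cont k.cs)).mono (by norm_num)) (NL_Lly h k) (fun T hT n => ?_)
  have hL : Real.log T ≠ 0 := by have := log_ge hT; linarith
  refine fin_step ?_ n
  rw [cf_mul, cf_mul, cf_log hL, cf_lam hL, cf_y, smul_mul_smul_comm, ← pow_two, smul_mul_assoc,
    mul_comm (H98.SZ.LaF _)]

end

end H11.SZ
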