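import Pool.Agent.H11.SZ.Ba

/-!
# Fourier-Laplace coefficients of smooth compactly supported functions on the line `Re τ = 2`
-/

open MeasureTheory Real Set Complex
open scoped FourierTransform ContDiff

namespace H11.SZ

/-- the point `2 + i ξ` -/
noncomputable def tau (ξ : ℝ) : ℂ := 2 + ξ * I

theorem tau_re (ξ : ℝ) : (tau ξ).re = 2 := by simp [tau]

theorem tau_ne (ξ : ℝ) : tau ξ ≠ 0 := by
  intro h
  have := tau_re ξ
  rw [h] at this
  simp at this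

theorem continuous_tau : Continuous tau := by
  unfold tau; fun_prop

theorem norm_tau_ge (ξ : ℝ) : 2 ≤ ‖tau ξ‖ := by
  have := Complex.abs_re_le_norm (tau ξ)
  rw [tau_re] at this
  simpa using this

theorem norm_tau_le (ξ : ℝ) : ‖tau ξ‖ ≤ 2 + |ξ| := by
  unfold tau
  calc ‖(2 : ℂ) + ξ * I‖ ≤ ‖(2 : ℂ)‖ + ‖(ξ : ℂ) * I‖ := norm_add_le _ _
    _ = 2 + |ξ| := by simp

/-- smooth with compact support -/
structure Nc (f : ℝ → ℂ) : Prop where
  sm : ContDiff ℝ ∞ f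
  cs : HasCompactSupport f

/-- the coefficients: `f(u) = ∫ pc f ξ e^{-(2+iξ)u} dξ` -/
noncomputable def pc (f : ℝ → ℂ) (ξ : ℝ) : ℂ := (2 * π : ℂ)⁻¹ * ∫ u : ℝ, f u * cexp (tau ξ * u)

theorem Nc.cont {f : ℝ → ℂ} (h : Nc f) : Continuous f := h.sm.continuous

theorem Nc.deriv {f : ℝ → ℂ} (h : Nc f) : Nc (deriv f) :=
  ⟨(contDiff_infty_iff_deriv.1 h.sm).2, h.cs.deriv⟩

/-- the auxiliary Schwartz function `f(u) e^{2u}` -/
noncomputable def sq {f : ℝ → ℂ} (h : Nc f) : SchwartzMap ℝ ℂ :=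
  HasCompactSupport.toSchwartzMap (f := fun u => f u * cexp (2 * u)) (h.cs.mul_right)
    (h.sm.mul ((contDiff_const.mul Complex.ofRealCLM.contDiff).cexp))

theorem sq_apply {f : ℝ → ℂ} (h : Nc f) (u : ℝ) : sq h u = f u * cexp (2 * u) := rfl

theorem pc_eq {f : ℝ → ℂ} (h : Nc f) (ξ : ℝ) : pc f ξ = (2 * π : ℂ)⁻¹ * 𝓕 (sq h) (-ξ / (2 * π)) := by
  unfold pc
  congr 1
  rw [SchwartzMap.fourier_coe, Real.fourier_eq']
  congr 1
  funext u
  rw [sq_apply, smul_eq_mul]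
  have : cexp (↑(-2 * π * inner ℝ u (-ξ / (2 * π))) * I) * (f u * cexp (2 * u))
      = f u * (cexp (↑(-2 * π * inner ℝ u (-ξ / (2 * π))) * I) * cexp (2 * u)) := by ring
  rw [this, ← Complex.exp_add]
  congr 2
  simp only [RCLike.inner_apply, conj_trivial, tau]
  push_cast
  have hp : (π : ℂ) ≠ 0 := by exact_mod_cast Real.pi_ne_zero
  field_simp
  ring

theorem pc_cont {f : ℝ → ℂ} (h : Nc f) : Continuous (pc f) := by
  have : pc f = fun ξ => (2 * π : ℂ)⁻¹ * 𝓕 (sq h) (-ξ / (2 * π)) := funext (pc_eq h)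
  rw [this]
  have h1 := (𝓕 (sq h)).continuous
  fun_prop

theorem pc_pow {f : ℝ → ℂ} (h : Nc f) (k : ℕ) : Integrable (fun ξ : ℝ => |ξ| ^ k * ‖pc f ξ‖) := by
  have h1 := (𝓕 (sq h)).integrable_pow_mul volume k
  have h2 := (h1.comp_mul_left' (R := -(1 / (2 * π))) (by
    apply neg_ne_zero.2
    positivity)).const_mul ((2 * π) ^ k * (2 * π)⁻¹)
  refine h2.congr (ae_of_all _ fun ξ => ?_)
  simp only
  rw [pc_eq h, norm_mul (2 * π : ℂ)⁻¹, norm_inv (2 * π : ℂ)]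
  have e1 : -(1 / (2 * π)) * ξ = -ξ / (2 * π) := by ring
  rw [e1]
  have e2 : ‖(2 * π : ℂ)‖ = 2 * π := by
    rw [norm_mul, Complex.norm_real, Real.norm_of_nonneg Real.pi_pos.le]; simp
  have e3 : ‖-ξ / (2 * π)‖ = |ξ| / (2 * π) := by
    rw [Real.norm_eq_abs, abs_div, abs_neg, abs_of_pos (by positivity : 0 < 2 * π)]
  rw [e2, e3, div_pow]
  have : (2 * π) ^ k ≠ 0 := by positivity
  field_simp

theorem pc_int {f : ℝ → ℂ} (h : Nc f) : Integrable (pc f) := by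
  have := pc_pow h 0
  simp only [pow_zero, one_mul] at this
  exact (integrable_norm_iff (pc_cont h).aestronglyMeasurable).1 this

/-- anything of polynomial growth against `pc f` is integrable -/
theorem pc_mul_int {f : ℝ → ℂ} (h : Nc f) {g : ℝ → ℂ} (hg : AEStronglyMeasurable g) {C : ℝ} {k : ℕ}
    (hb : ∀ ξ, ‖g ξ‖ ≤ C * (1 + |ξ|) ^ k) : Integrable (fun ξ => pc f ξ * g ξ) := by
  have h1 : Integrable (fun ξ : ℝ => (1 + |ξ|) ^ k * ‖pc f ξ‖) := by
    have h2 : Integrable (fun ξ : ℝ => ∑ j ∈ Finset.range (k + 1), (k.choose j : ℝ) * (|ξ| ^ j * ‖pc f ξ‖)) :=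
      integrable_finsetSum _ fun j _ => (pc_pow h j).const_mul _
    refine h2.congr (ae_of_all _ fun ξ => ?_)
    simp only
    rw [add_comm 1 |ξ|, add_pow, Finset.sum_mul]
    refine Finset.sum_congr rfl fun j _ => ?_
    rw [one_pow]
    ring
  refine (h1.const_mul C).mono' ((pc_cont h).aestronglyMeasurable.mul hg) (ae_of_all _ fun ξ => ?_)
  rw [norm_mul]
  calc ‖pc f ξ‖ * ‖g ξ‖ ≤ ‖pc f ξ‖ * (C * (1 + |ξ|) ^ k) := by gcongr; exact hb ξ
    _ = _ := by ring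

theorem pc_inv {f : ℝ → ℂ} (h : Nc f) (u : ℝ) : ∫ ξ : ℝ, pc f ξ * cexp (-(tau ξ * u)) = f u := by
  have h1 : 𝓕⁻ (𝓕 (sq h)) = sq h := FourierTransform.fourierInv_fourier_eq (sq h)
  have h2 := congrArg (fun g : SchwartzMap ℝ ℂ => g u) h1
  rw [SchwartzMap.fourierInv_coe, Real.fourierInv_eq', sq_apply] at h2
  have h3 : ∫ ξ : ℝ, pc f ξ * cexp (-(tau ξ * u))
      = (2 * π : ℝ)⁻¹ • ∫ ξ : ℝ, cexp (-(2 * u)) * (cexp (↑(2 * π * inner ℝ (-ξ / (2 * π)) u) * I) • 𝓕 (sq h) (-ξ / (2 * π))) := by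
    rw [← integral_smul]
    congr 1
    funext ξ
    rw [pc_eq h]
    simp only [RCLike.inner_apply, conj_trivial, tau, Complex.real_smul, smul_eq_mul]
    push_cast
    have e : cexp (-((2 + ξ * I) * u)) = cexp (-(2 * u)) * cexp (2 * π * (u * (-ξ / (2 * π))) * I) := by
      rw [← Complex.exp_add]
      congr 1
      have hp : (π : ℂ) ≠ 0 := by exact_mod_cast Real.pi_ne_zero
      field_simp
      ring
    rw [e]
    ring
  rw [h3, integral_const_mul]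
  have h4 := MeasureTheory.Measure.integral_comp_mul_left
    (fun w : ℝ => cexp (↑(2 * π * inner ℝ w u) * I) • 𝓕 (sq h) w) (-(1 / (2 * π)))
  have e1 : ∀ ξ : ℝ, -(1 / (2 * π)) * ξ = -ξ / (2 * π) := fun ξ => by ring
  simp only [e1] at h4
  rw [h4, h2, Complex.real_smul, Complex.real_smul]
  have e5 : |(-(1 / (2 * π)))⁻¹| = 2 * π := by
    rw [abs_inv, abs_neg, abs_of_pos (by positivity)]
    simp
  rw [e5]
  have e6 : cexp (-(2 * (u : ℂ))) * cexp (2 * u) = 1 := by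
    rw [← Complex.exp_add]; simp
  push_cast
  have hp : (π : ℂ) ≠ 0 := by exact_mod_cast Real.pi_ne_zero
  field_simp
  linear_combination (f u) * e6

end H11.SZ
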