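import Pool.Agent.H82.SZ.Ms

/-!
# Tails of the window sums and polynomial bounds of coefficients
-/

open Finset Filter Topology
open scoped ArithmeticFunction.vonMangoldt ArithmeticFunction.Moebius ArithmeticFunction.zeta

namespace H11.SZ

/-- `log T ≥ 1` for `T ≥ 3` -/
theorem log_ge {T : ℝ} (hT : 3 ≤ T) : 1 ≤ Real.log T := by
  have h1 : Real.exp 1 ≤ T := by
    have := Real.exp_one_lt_d9
    linarith
  have h2 := Real.log_le_log (Real.exp_pos 1) h1
  rwa [Real.log_exp] at h2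

/-- the window is tiny for `n > N₀ k` -/
theorem tail_pt {T : ℝ} (hT : 3 ≤ T) {k n : ℕ} (hk : 1 ≤ k) (hkT : (k : ℝ) ≤ T) (hn : H82SZ.N0 T * k < n) {j : ℕ} (hj : j ≤ 1) :
    |H82SZ.wt T (n / k) * Real.log (n / k) ^ j| ≤ n * ((n : ℝ) ^ 10 * T ^ 10)⁻¹ := by
  have hL := log_ge hT
  have hT0 : 0 < T := by linarith
  have hk1 : (1 : ℝ) ≤ k := by exact_mod_cast hk
  have hk0 : (0 : ℝ) < k := by linarith
  have hN : 10 * T ≤ H82SZ.N0 T := Nat.le_ceil _
  have hn1 : 10 * T * k < n := by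
    have : ((H82SZ.N0 T * k : ℕ) : ℝ) < n := by exact_mod_cast hn
    push_cast at this
    nlinarith
  have hn0 : (0 : ℝ) < n := by
    have : 0 < 10 * T * k := by positivity
    linarith
  set r : ℝ := n / k with hr
  have hr10 : 10 * T < r := by rw [hr, lt_div_iff₀ hk0]; exact hn1
  have hr1 : 1 ≤ r := by linarith
  have hrn : r ≤ n := by rw [hr]; exact div_le_self hn0.le hk1
  set u : ℝ := r / T with hu
  have hu10 : 10 ≤ u := by rw [hu, le_div_iff₀ hT0]; exact hr10.le
  have hnu : (n : ℝ) ≤ u * T ^ 2 := by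
    have h1 : (n : ℝ) = r * k := by rw [hr]; field_simp
    have h2 : r = u * T := by rw [hu]; field_simp
    rw [h1, h2]
    nlinarith [mul_nonneg (by positivity : 0 ≤ u) hT0.le]
  have hlogn : Real.log n ≤ u + 2 * Real.log T := by
    have h1 := Real.log_le_log hn0 hnu
    rw [Real.log_mul (by positivity) (by positivity), Real.log_pow] at h1
    have h2 := Real.log_le_sub_one_of_pos (show 0 < u by positivity)
    push_cast at h1
    linarith
  have hwt : H82SZ.wt T r ≤ ((n : ℝ) ^ 10 * T ^ 10)⁻¹ := by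
    have h1 : ((n : ℝ) ^ 10 * T ^ 10)⁻¹ = Real.exp (-(10 * Real.log n + 10 * Real.log T)) := by
      rw [Real.exp_neg, Real.exp_add, mul_comm 10 (Real.log n), mul_comm 10 (Real.log T), Real.exp_mul, Real.exp_mul,
        Real.exp_log hn0, Real.exp_log hT0]
      norm_cast
    rw [h1]
    unfold H82SZ.wt
    apply Real.exp_le_exp.2
    apply neg_le_neg
    have h2 : 5 * r ≤ 2 * Real.pi * r - T := by
      have := Real.pi_gt_three
      nlinarith
    have h3 : 25 * r ^ 2 ≤ (T - 2 * Real.pi * r) ^ 2 := by nlinarith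
    have h4 : 250 * u * Real.log T ≤ (T - 2 * Real.pi * r) ^ 2 * Real.log T / T ^ 2 := by
      have h5 : 25 * u ^ 2 * Real.log T ≤ (T - 2 * Real.pi * r) ^ 2 * Real.log T / T ^ 2 := by
        rw [le_div_iff₀ (by positivity)]
        have : 25 * u ^ 2 * Real.log T * T ^ 2 = (25 * r ^ 2) * Real.log T := by rw [hu]; field_simp
        rw [this]
        gcongr
      nlinarith [mul_nonneg (mul_nonneg (by linarith : 0 ≤ u) (by linarith : 0 ≤ u - 10)) (by linarith : 0 ≤ Real.log T)]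
    nlinarith [mul_nonneg (by linarith : 0 ≤ u - 1) (by linarith : 0 ≤ Real.log T - 1)]
  have hlr : |Real.log r ^ j| ≤ n := by
    have h1 : 0 ≤ Real.log r := Real.log_nonneg hr1
    have h2 : Real.log r ≤ r := by
      have := Real.log_le_sub_one_of_pos (show 0 < r by linarith)
      linarith
    rw [abs_of_nonneg (pow_nonneg h1 j)]
    interval_cases j
    · simp only [pow_zero]; linarith
    · rw [pow_one]; linarith
  have hw0 : 0 ≤ H82SZ.wt T r := (Real.exp_pos _).le
  rw [abs_mul, abs_of_nonneg hw0, mul_comm]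
  exact mul_le_mul hlr hwt hw0 hn0.le

/-- polynomial bound of coefficients -/
def PB (c : ℝ → ArithmeticFunction ℝ) (m : ℕ) : Prop :=
  ∃ C : ℝ, 0 ≤ C ∧ ∀ T, 3 ≤ T → ∀ n : ℕ, |c T n| ≤ C * (n : ℝ) ^ m

theorem PB.mul {c d : ℝ → ArithmeticFunction ℝ} {m p : ℕ} (hc : PB c m) (hd : PB d p) :
    PB (fun T => c T * d T) (m + p + 1) := by
  obtain ⟨C, hC0, hC⟩ := hc
  obtain ⟨D, hD0, hD⟩ := hd
  refine ⟨C * D, by positivity, fun T hT n => ?_⟩
  rw [ArithmeticFunction.mul_apply]
  have h1 : ∀ x ∈ n.divisorsAntidiagonal, |c T x.1 * d T x.2| ≤ C * D * (n : ℝ) ^ (m + p) := by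
    intro x hx
    have hx1 := Nat.mem_divisorsAntidiagonal.1 hx
    have a1 : (x.1 : ℝ) ≤ n := by
      exact_mod_cast Nat.le_of_dvd (Nat.pos_of_ne_zero hx1.2) ⟨x.2, hx1.1.symm⟩
    have a2 : (x.2 : ℝ) ≤ n := by
      exact_mod_cast Nat.le_of_dvd (Nat.pos_of_ne_zero hx1.2) ⟨x.1, by rw [mul_comm]; exact hx1.1.symm⟩
    rw [abs_mul]
    calc |c T x.1| * |d T x.2| ≤ (C * (x.1 : ℝ) ^ m) * (D * (x.2 : ℝ) ^ p) := by
          gcongr
          · exact hC T hT _
          · exact hD T hT _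
      _ ≤ (C * (n : ℝ) ^ m) * (D * (n : ℝ) ^ p) := by gcongr
      _ = _ := by rw [pow_add]; ring
  have h2 : (n.divisorsAntidiagonal.card : ℝ) ≤ n := by
    rw [← Nat.map_div_right_divisors, Finset.card_map]
    exact_mod_cast Nat.card_divisors_le_self n
  calc |∑ x ∈ n.divisorsAntidiagonal, c T x.1 * d T x.2| ≤ ∑ x ∈ n.divisorsAntidiagonal, |c T x.1 * d T x.2| :=
        Finset.abs_sum_le_sum_abs _ _
    _ ≤ ∑ _x ∈ n.divisorsAntidiagonal, C * D * (n : ℝ) ^ (m + p) := Finset.sum_le_sum h1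
    _ = n.divisorsAntidiagonal.card * (C * D * (n : ℝ) ^ (m + p)) := by rw [Finset.sum_const, nsmul_eq_mul]
    _ ≤ n * (C * D * (n : ℝ) ^ (m + p)) := by gcongr
    _ = C * D * (n : ℝ) ^ (m + p + 1) := by rw [pow_succ]; ring

theorem PB.mono {c : ℝ → ArithmeticFunction ℝ} {m p : ℕ} (hc : PB c m) (hmp : m ≤ p) : PB c p := by
  obtain ⟨C, hC0, hC⟩ := hc
  refine ⟨C, hC0, fun T hT n => ?_⟩
  rcases Nat.eq_zero_or_pos n with hn | hn
  · subst hn
    rw [ArithmeticFunction.map_zero, abs_zero]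
    positivity
  · refine (hC T hT n).trans ?_
    have : (1 : ℝ) ≤ n := by exact_mod_cast hn
    gcongr

theorem PB_zeta : PB (fun _ => (ζ : ArithmeticFunction ℝ)) 1 := by
  refine ⟨1, zero_le_one, fun T _ n => ?_⟩
  rw [pow_one, one_mul]
  rcases Nat.eq_zero_or_pos n with hn | hn
  · subst hn; simp
  · rw [ArithmeticFunction.natCoe_apply, ArithmeticFunction.zeta_apply_ne hn.ne']
    simp only [Nat.cast_one, abs_one]
    exact_mod_cast hn

theorem PB_log : PB (fun _ => ArithmeticFunction.log) 1 := by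
  refine ⟨1, zero_le_one, fun T _ n => ?_⟩
  rw [pow_one, one_mul, ArithmeticFunction.log_apply]
  rcases Nat.eq_zero_or_pos n with hn | hn
  · subst hn; simp
  · have h1 : (1 : ℝ) ≤ n := by exact_mod_cast hn
    rw [abs_of_nonneg (Real.log_nonneg h1)]
    have := Real.log_le_sub_one_of_pos (show (0 : ℝ) < n by linarith)
    linarith

theorem lam_le (n : ℕ) : |Λ n| ≤ n := by
  rw [abs_of_nonneg ArithmeticFunction.vonMangoldt_nonneg]
  refine ArithmeticFunction.vonMangoldt_le_log.trans ?_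
  rcases Nat.eq_zero_or_pos n with hn | hn
  · subst hn; simp
  · have h1 : (1 : ℝ) ≤ n := by exact_mod_cast hn
    have := Real.log_le_sub_one_of_pos (show (0 : ℝ) < n by linarith)
    linarith

theorem PB_lam : PB (fun _ => Λ) 1 := by
  refine ⟨1, zero_le_one, fun T _ n => ?_⟩
  rw [pow_one, one_mul]
  exact lam_le n

theorem bdd_of {P : ℝ → ℝ} (h1 : Continuous P) (h2 : HasCompactSupport P) : ∃ M : ℝ, 0 ≤ M ∧ ∀ u, |P u| ≤ M := by
  obtain ⟨M, hM⟩ := h1.bounded_above_of_compact_support h2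
  exact ⟨M, (norm_nonneg _).trans (hM 0), hM⟩

theorem PB_y {α : ℝ → ℝ} (h1 : Continuous α) (h2 : HasCompactSupport α) : PB (fun T => H82SZ.yk α T) 1 := by
  obtain ⟨M, hM0, hM⟩ := bdd_of h1 h2
  refine ⟨M, hM0, fun T hT n => ?_⟩
  have hL := log_ge hT
  change |Λ n * α (Real.log n / Real.log T) / Real.log T| ≤ _
  rw [abs_div, abs_mul, pow_one, abs_of_pos (by linarith : 0 < Real.log T)]
  calc |Λ n| * |α (Real.log n / Real.log T)| / Real.log T ≤ |Λ n| * |α (Real.log n / Real.log T)| :=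
        div_le_self (by positivity) hL
    _ ≤ n * M := by
        gcongr
        · exact lam_le n
        · exact hM _
    _ = M * n := by ring

theorem PB_x {P : ℝ → ℝ} (h1 : Continuous P) (h2 : HasCompactSupport P) : PB (fun T => H82SZ.xk P T) 1 := by
  obtain ⟨M, hM0, hM⟩ := bdd_of h1 h2
  refine ⟨M, hM0, fun T hT n => ?_⟩
  change |(ArithmeticFunction.moebius n : ℝ) * P (Real.log n / Real.log T)| ≤ _
  rcases Nat.eq_zero_or_pos n with hn | hn
  · subst hn; simp
  · have hn1 : (1 : ℝ) ≤ n := by exact_mod_cast hn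
    have hmu : |((ArithmeticFunction.moebius n : ℤ) : ℝ)| ≤ 1 := by
      have := ArithmeticFunction.abs_moebius_le_one (n := n)
      exact_mod_cast this
    rw [abs_mul, pow_one]
    calc |((ArithmeticFunction.moebius n : ℤ) : ℝ)| * |P (Real.log n / Real.log T)| ≤ 1 * M := by
          gcongr
          exact hM _
      _ ≤ M * n := by nlinarith

end H11.SZ
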